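import Mathlib

/-!
# Counting solutions of a x + b y = c z in boxes
-/

set_option autoImplicit false
set_option linter.unusedSectionVars false

open Finset

namespace Pool.Agent.R804.RbLim

/-- The linear form of the equation. -/
def E (a b c : ℤ) (y : Fin 3 → ℤ) : ℤ := a * y 0 + b * y 1 - c * y 2

/-- The box of side `n`. -/
noncomputable def box (n : ℕ) : Finset (Fin 3 → ℤ) := Fintype.piFinset (fun _ => Icc (1 : ℤ) n)

/-- The points of the box where the linear form has the value `w`. -/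
noncomputable def T (a b c : ℤ) (n : ℕ) (w : ℤ) : Finset (Fin 3 → ℤ) :=
  (box n).filter (fun y => E a b c y = w)

theorem mem_box {n : ℕ} {y : Fin 3 → ℤ} : y ∈ box n ↔ ∀ k, 1 ≤ y k ∧ y k ≤ n := by
  simp [box, Fintype.mem_piFinset, Finset.mem_Icc]

theorem mem_T {a b c : ℤ} {n : ℕ} {w : ℤ} {y : Fin 3 → ℤ} :
    y ∈ T a b c n w ↔ (∀ k, 1 ≤ y k ∧ y k ≤ n) ∧ E a b c y = w := by
  simp [T, mem_box, Finset.mem_filter]

theorem E_add (a b c : ℤ) (y z : Fin 3 → ℤ) : E a b c (y + z) = E a b c y + E a b c z := by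
  simp [E]; ring

theorem E_smul (a b c : ℤ) (t : ℤ) (y : Fin 3 → ℤ) : E a b c (t • y) = t * E a b c y := by
  simp [E]; ring

theorem E_sub (a b c : ℤ) (y z : Fin 3 → ℤ) : E a b c (y - z) = E a b c y - E a b c z := by
  simp [E]; ring

section

variable {a b c : ℤ} (ha : 0 < a) (hb : 0 < b) (hc : 0 < c)
include ha hb hc

/-- Two coordinates determine the third. -/
theorem eq_of_two {y z : Fin 3 → ℤ} (h : E a b c y = E a b c z) {i j : Fin 3} (hij : i ≠ j)
    (hi : y i = z i) (hj : y j = z j) : y = z := by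
  unfold E at h
  have key : y 0 = z 0 ∧ y 1 = z 1 ∧ y 2 = z 2 := by
    fin_cases i <;> fin_cases j <;> simp only [ne_eq, not_true_eq_false, Fin.zero_eta,
      Fin.mk_one, Fin.reduceFinMk, Fin.isValue] at hij hi hj <;>
      first
        | (exfalso; exact hij rfl)
        | (have h2 : c * y 2 = c * z 2 := by rw [hi, hj] at h; linarith
           exact ⟨hi, hj, mul_left_cancel₀ hc.ne' h2⟩)
        | (have h2 : c * y 2 = c * z 2 := by rw [hi, hj] at h; linarith
           exact ⟨hj, hi, mul_left_cancel₀ hc.ne' h2⟩)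
        | (have h2 : b * y 1 = b * z 1 := by rw [hi, hj] at h; linarith
           exact ⟨hi, mul_left_cancel₀ hb.ne' h2, hj⟩)
        | (have h2 : b * y 1 = b * z 1 := by rw [hi, hj] at h; linarith
           exact ⟨hj, mul_left_cancel₀ hb.ne' h2, hi⟩)
        | (have h2 : a * y 0 = a * z 0 := by rw [hi, hj] at h; linarith
           exact ⟨mul_left_cancel₀ ha.ne' h2, hi, hj⟩)
        | (have h2 : a * y 0 = a * z 0 := by rw [hi, hj] at h; linarith
           exact ⟨mul_left_cancel₀ ha.ne' h2, hj, hi⟩)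
  funext k
  fin_cases k
  · exact key.1
  · exact key.2.1
  · exact key.2.2

/-- Solutions with one coordinate in a given set. -/
theorem card_le_of_coord {w : ℤ} {S : Finset (Fin 3 → ℤ)} {A B : Finset ℤ} {i j : Fin 3}
    (hij : i ≠ j) (hE : ∀ y ∈ S, E a b c y = w) (hA : ∀ y ∈ S, y i ∈ A) (hB : ∀ y ∈ S, y j ∈ B) :
    S.card ≤ A.card * B.card := by
  rw [← Finset.card_product]
  refine Finset.card_le_card_of_injOn (fun y => (y i, y j)) ?_ ?_
  · intro y hy
    exact Finset.mem_coe.mpr (Finset.mem_product.mpr ⟨hA y hy, hB y hy⟩)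
  · intro y hy z hz h
    simp only [Prod.mk.injEq] at h
    exact eq_of_two ha hb hc ((hE y hy).trans (hE z hz).symm) hij h.1 h.2

theorem exists_other (k : Fin 3) : ∃ j : Fin 3, k ≠ j := by
  fin_cases k
  · exact ⟨1, by decide⟩
  · exact ⟨0, by decide⟩
  · exact ⟨0, by decide⟩

theorem card_T_le (n : ℕ) (w : ℤ) : (T a b c n w).card ≤ n * n := by
  have h := card_le_of_coord ha hb hc (w := w) (S := T a b c n w) (A := Icc (1 : ℤ) n)
    (B := Icc (1 : ℤ) n) (i := 0) (j := 1) (by decide)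
    (fun y hy => (mem_T.mp hy).2)
    (fun y hy => Finset.mem_Icc.mpr ((mem_T.mp hy).1 0))
    (fun y hy => Finset.mem_Icc.mpr ((mem_T.mp hy).1 1))
  simpa using h

theorem card_shift (n : ℕ) (δ : ℤ) :
    ((Icc (1 : ℤ) n).filter (fun t => ¬ (1 ≤ t + δ ∧ t + δ ≤ n))).card ≤ δ.natAbs := by
  rcases le_total 0 δ with h | h
  · have hsub : ((Icc (1 : ℤ) n).filter (fun t => ¬ (1 ≤ t + δ ∧ t + δ ≤ n)))
        ⊆ Ioc ((n : ℤ) - δ) n := by
      intro t ht
      rw [Finset.mem_filter, Finset.mem_Icc] at ht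
      rw [Finset.mem_Ioc]
      omega
    refine (Finset.card_le_card hsub).trans ?_
    rw [Int.card_Ioc]
    omega
  · have hsub : ((Icc (1 : ℤ) n).filter (fun t => ¬ (1 ≤ t + δ ∧ t + δ ≤ n)))
        ⊆ Ico (1 : ℤ) (1 - δ) := by
      intro t ht
      rw [Finset.mem_filter, Finset.mem_Icc] at ht
      rw [Finset.mem_Ico]
      omega
    refine (Finset.card_le_card hsub).trans ?_
    rw [Int.card_Ico]
    omega

/-- Solutions that leave the box after a shift. -/
theorem card_leave (n : ℕ) (w : ℤ) (δ : Fin 3 → ℤ) :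
    ((T a b c n w).filter (fun y => y + δ ∉ box n)).card ≤ (∑ k, (δ k).natAbs) * n := by
  have hsub : (T a b c n w).filter (fun y => y + δ ∉ box n)
      ⊆ Finset.univ.biUnion (fun k : Fin 3 => (T a b c n w).filter
        (fun y => y k ∈ (Icc (1 : ℤ) n).filter (fun t => ¬ (1 ≤ t + δ k ∧ t + δ k ≤ n)))) := by
    intro y hy
    rw [Finset.mem_filter, mem_box] at hy
    obtain ⟨hy1, hy2⟩ := hy
    rw [not_forall] at hy2
    obtain ⟨k, hk⟩ := hy2
    rw [Finset.mem_biUnion]
    refine ⟨k, Finset.mem_univ _, Finset.mem_filter.mpr ⟨hy1, Finset.mem_filter.mpr ⟨?_, ?_⟩⟩⟩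
    · exact Finset.mem_Icc.mpr ((mem_T.mp hy1).1 k)
    · simpa using hk
  refine (Finset.card_le_card hsub).trans (Finset.card_biUnion_le.trans ?_)
  rw [Finset.sum_mul]
  refine Finset.sum_le_sum fun k _ => ?_
  obtain ⟨j, hj⟩ := exists_other ha hb hc k
  have h := card_le_of_coord ha hb hc (w := w)
    (S := (T a b c n w).filter
        (fun y => y k ∈ (Icc (1 : ℤ) n).filter (fun t => ¬ (1 ≤ t + δ k ∧ t + δ k ≤ n))))
    (A := (Icc (1 : ℤ) n).filter (fun t => ¬ (1 ≤ t + δ k ∧ t + δ k ≤ n)))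
    (B := Icc (1 : ℤ) n) hj
    (fun y hy => (mem_T.mp (Finset.mem_filter.mp hy).1).2)
    (fun y hy => (Finset.mem_filter.mp hy).2)
    (fun y hy => Finset.mem_Icc.mpr ((mem_T.mp (Finset.mem_filter.mp hy).1).1 j))
  refine h.trans ?_
  have h2 := card_shift ha hb hc n (δ k)
  have h3 : (Icc (1 : ℤ) n).card = n := by simp
  rw [h3]
  exact Nat.mul_le_mul_right _ h2

/-- A lower bound for the number of solutions. -/
theorem card_T_ge (n : ℕ) (q : ℕ) (hq : (a + b + c) * q ≤ n) : q * q ≤ (T a b c n 0).card := by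
  have hinj : Set.InjOn (fun p : ℤ × ℤ => (![c * p.1, c * p.2, a * p.1 + b * p.2] : Fin 3 → ℤ))
      ((Icc (1 : ℤ) q ×ˢ Icc (1 : ℤ) q : Finset (ℤ × ℤ)) : Set (ℤ × ℤ)) := by
    intro p _ r _ h
    have h0 := congrFun h 0
    have h1 := congrFun h 1
    simp only [Matrix.cons_val_zero, Matrix.cons_val_one] at h0 h1
    exact Prod.ext (mul_left_cancel₀ hc.ne' h0) (mul_left_cancel₀ hc.ne' h1)
  have h := Finset.card_le_card_of_injOn (s := (Icc (1 : ℤ) q ×ˢ Icc (1 : ℤ) q))
    (t := T a b c n 0) (fun p : ℤ × ℤ => (![c * p.1, c * p.2, a * p.1 + b * p.2] : Fin 3 → ℤ))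
    ?_ hinj
  · simpa [Finset.card_product] using h
  · intro p hp
    rw [Finset.mem_coe, Finset.mem_product, Finset.mem_Icc, Finset.mem_Icc] at hp
    obtain ⟨⟨h1, h2⟩, h3, h4⟩ := hp
    rw [Finset.mem_coe, mem_T]
    have e1 : c * p.1 ≤ c * q := mul_le_mul_of_nonneg_left h2 hc.le
    have e2 : c * p.2 ≤ c * q := mul_le_mul_of_nonneg_left h4 hc.le
    have e3 : a * p.1 ≤ a * q := mul_le_mul_of_nonneg_left h2 ha.le
    have e4 : b * p.2 ≤ b * q := mul_le_mul_of_nonneg_left h4 hb.le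
    have f1 : 1 ≤ c * p.1 := by nlinarith
    have f2 : 1 ≤ c * p.2 := by nlinarith
    have f3 : 1 ≤ a * p.1 := by nlinarith
    have f4 : 1 ≤ b * p.2 := by nlinarith
    have hq0 : (0 : ℤ) ≤ q := Int.natCast_nonneg q
    have g1 : 0 ≤ a * (q : ℤ) := mul_nonneg ha.le hq0
    have g2 : 0 ≤ b * (q : ℤ) := mul_nonneg hb.le hq0
    have g3 : 0 ≤ c * (q : ℤ) := mul_nonneg hc.le hq0
    have g4 : a * q + b * q + c * q ≤ n := by linarith [hq]
    constructor
    · intro k
      fin_cases k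
      · simp only [Fin.zero_eta, Fin.isValue, Matrix.cons_val_zero]
        constructor <;> linarith
      · simp only [Fin.mk_one, Fin.isValue, Matrix.cons_val_one, Matrix.cons_val_zero]
        constructor <;> linarith
      · simp only [Fin.reduceFinMk, Fin.isValue, Matrix.cons_val]
        constructor <;> linarith
    · simp only [E, Matrix.cons_val_zero, Matrix.cons_val_one, Fin.isValue, Matrix.cons_val]
      ring

end

end Pool.Agent.R804.RbLim
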