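import Pool.Agent.R804.RbLim.Round

/-!
# Fourier estimates on cyclic groups
-/

set_option autoImplicit false
set_option linter.unusedSectionVars false

open Finset Function

namespace Pool.Agent.R804.RbLim

section Dirichlet

/-- Simultaneous approximation on the torus. -/
theorem dirichlet_fin (K : ℕ) {δ : ℝ} (hδ : 0 < δ) : ∃ M : ℕ, ∀ z : Fin K → ℂ,
    (∀ i, ‖z i‖ = 1) → ∃ m : ℕ, 1 ≤ m ∧ m ≤ M ∧ ∀ i, ‖z i ^ m - 1‖ ≤ δ := by
  have htb : TotallyBounded (Metric.closedBall (0 : Fin K → ℂ) 1) :=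
    (isCompact_closedBall _ _).totallyBounded
  rw [Metric.totallyBounded_iff] at htb
  obtain ⟨F, hF, hcov⟩ := htb (δ / 2) (half_pos hδ)
  refine ⟨hF.toFinset.card, fun z hz => ?_⟩
  have hmem : ∀ t : ℕ, (fun i => z i ^ t) ∈ Metric.closedBall (0 : Fin K → ℂ) 1 := by
    intro t
    rw [mem_closedBall_zero_iff, pi_norm_le_iff_of_nonneg zero_le_one]
    intro i
    rw [norm_pow, hz i, one_pow]
  have hch : ∀ t : ℕ, ∃ y ∈ F, dist (fun i => z i ^ t) y < δ / 2 := by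
    intro t
    have h := hcov (hmem t)
    rw [Set.mem_iUnion₂] at h
    obtain ⟨y, hy, h⟩ := h
    exact ⟨y, hy, h⟩
  choose y hyF hyd using hch
  have key : ∀ s t : ℕ, s < t → t < hF.toFinset.card + 1 → y s = y t →
      ∃ m : ℕ, 1 ≤ m ∧ m ≤ hF.toFinset.card ∧ ∀ i, ‖z i ^ m - 1‖ ≤ δ := by
    intro s t hst ht h
    refine ⟨t - s, by omega, by omega, fun i => ?_⟩
    have h1 : dist (fun i => z i ^ s) (fun i => z i ^ t) < δ := by
      calc dist (fun i => z i ^ s) (fun i => z i ^ t)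
          ≤ dist (fun i => z i ^ s) (y s) + dist (y s) (fun i => z i ^ t) := dist_triangle _ _ _
        _ < δ / 2 + δ / 2 := by
          apply add_lt_add (hyd s)
          rw [h, dist_comm]
          exact hyd t
        _ = δ := by ring
    have h2 := (dist_le_pi_dist (fun i => z i ^ s) (fun i => z i ^ t) i).trans h1.le
    rw [dist_comm, dist_eq_norm] at h2
    have h3 : z i ^ t - z i ^ s = z i ^ s * (z i ^ (t - s) - 1) := by
      rw [mul_sub, ← pow_add, mul_one]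
      congr 2
      omega
    rw [h3, norm_mul, norm_pow, hz i, one_pow, one_mul] at h2
    exact h2
  obtain ⟨s, hs, t, ht, hst, hyst⟩ := Finset.exists_ne_map_eq_of_card_lt_of_maps_to
    (s := Finset.range (hF.toFinset.card + 1)) (t := hF.toFinset) (by simp) (f := y)
    (fun t _ => hF.mem_toFinset.mpr (hyF t))
  rcases lt_or_gt_of_ne hst with h | h
  · exact key s t h (Finset.mem_range.mp ht) hyst
  · exact key t s h (Finset.mem_range.mp hs) hyst.symm

theorem dirichlet_set (K : ℕ) {δ : ℝ} (hδ : 0 < δ) : ∃ M : ℕ, ∀ S : Finset ℂ, S.card ≤ K →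
    (∀ z ∈ S, ‖z‖ = 1) → ∃ m : ℕ, 1 ≤ m ∧ m ≤ M ∧ ∀ z ∈ S, ‖z ^ m - 1‖ ≤ δ := by
  obtain ⟨M, hM⟩ := dirichlet_fin K hδ
  refine ⟨M, fun S hS hz => ?_⟩
  obtain ⟨m, h1, h2, h3⟩ := hM (fun i => if h : i.1 < S.card then
    (S.equivFin.symm ⟨i.1, h⟩ : ℂ) else 1) (by
      intro i
      by_cases h : i.1 < S.card
      · simp only [h, dif_pos]
        exact hz _ (S.equivFin.symm ⟨i.1, h⟩).2
      · simp [h])
  refine ⟨m, h1, h2, fun z hzS => ?_⟩
  have h4 := h3 ⟨(S.equivFin ⟨z, hzS⟩).1, (S.equivFin ⟨z, hzS⟩).2.trans_le hS⟩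
  simpa using h4

theorem norm_pow_sub_one_le {w : ℂ} (hw : ‖w‖ = 1) (j : ℕ) : ‖w ^ j - 1‖ ≤ j * ‖w - 1‖ := by
  induction j with
  | zero => simp
  | succ j ih =>
    have h1 : w ^ (j + 1) - 1 = w * (w ^ j - 1) + (w - 1) := by ring
    rw [h1]
    refine (norm_add_le _ _).trans ?_
    rw [norm_mul, hw, one_mul]
    push_cast
    linarith

end Dirichlet

section Fourier

variable {P : ℕ} [NeZero P]

/-- The Fourier transform of a function on an interval. -/
noncomputable def ft (P : ℕ) [NeZero P] (n : ℕ) (u : ℤ → ℂ) (ξ : ZMod P) : ℂ :=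
  ∑ x ∈ Icc (1 : ℤ) n, u x * ZMod.stdAddChar (ξ * (x : ZMod P))

theorem norm_char (x : ZMod P) : ‖(ZMod.stdAddChar x : ℂ)‖ = 1 :=
  AddChar.norm_apply _ _

theorem sum_char (t : ZMod P) :
    ∑ ξ : ZMod P, (ZMod.stdAddChar (ξ * t) : ℂ) = if t = 0 then (P : ℂ) else 0 := by
  rw [AddChar.sum_mulShift t (ZMod.isPrimitive_stdAddChar P), ZMod.card]
  push_cast
  rfl

theorem intCast_zero_iff {t : ℤ} (ht : |t| < P) : ((t : ℤ) : ZMod P) = 0 ↔ t = 0 := by
  rw [ZMod.intCast_zmod_eq_zero_iff_dvd]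
  constructor
  · intro h
    exact Int.eq_zero_of_abs_lt_dvd h ht
  · rintro rfl
    exact dvd_zero _

theorem parseval {n : ℕ} (hn : n ≤ P) (u : ℤ → ℂ) :
    ∑ ξ : ZMod P, ‖ft P n u ξ‖ ^ 2 = P * ∑ x ∈ Icc (1 : ℤ) n, ‖u x‖ ^ 2 := by
  have h1 : ∀ z : ℂ, ((‖z‖ ^ 2 : ℝ) : ℂ) = z * starRingEnd ℂ z := by
    intro z
    rw [Complex.mul_conj, Complex.normSq_eq_norm_sq]
  have h2 : ((∑ ξ : ZMod P, ‖ft P n u ξ‖ ^ 2 : ℝ) : ℂ)
      = ((P * ∑ x ∈ Icc (1 : ℤ) n, ‖u x‖ ^ 2 : ℝ) : ℂ) := by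
    rw [Complex.ofReal_sum, Complex.ofReal_mul, Complex.ofReal_sum]
    calc ∑ ξ : ZMod P, ((‖ft P n u ξ‖ ^ 2 : ℝ) : ℂ)
        = ∑ ξ : ZMod P, ∑ x ∈ Icc (1 : ℤ) n, ∑ x' ∈ Icc (1 : ℤ) n,
            u x * starRingEnd ℂ (u x') * ZMod.stdAddChar (ξ * ((x - x' : ℤ) : ZMod P)) := by
          refine Finset.sum_congr rfl fun ξ _ => ?_
          rw [h1]
          unfold ft
          rw [map_sum, Finset.sum_mul_sum]
          refine Finset.sum_congr rfl fun x _ => Finset.sum_congr rfl fun x' _ => ?_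
          rw [map_mul (starRingEnd ℂ), ← AddChar.map_neg_eq_conj]
          have : ξ * ((x - x' : ℤ) : ZMod P) = ξ * (x : ZMod P) + -(ξ * (x' : ZMod P)) := by
            push_cast; ring
          rw [this, AddChar.map_add_eq_mul]
          ring
      _ = ∑ x ∈ Icc (1 : ℤ) n, ∑ x' ∈ Icc (1 : ℤ) n, u x * starRingEnd ℂ (u x') *
            ∑ ξ : ZMod P, ZMod.stdAddChar (ξ * ((x - x' : ℤ) : ZMod P)) := by
          rw [Finset.sum_comm]
          refine Finset.sum_congr rfl fun x _ => ?_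
          rw [Finset.sum_comm]
          refine Finset.sum_congr rfl fun x' _ => ?_
          rw [Finset.mul_sum]
      _ = ∑ x ∈ Icc (1 : ℤ) n, ∑ x' ∈ Icc (1 : ℤ) n, u x * starRingEnd ℂ (u x') *
            (if x = x' then (P : ℂ) else 0) := by
          refine Finset.sum_congr rfl fun x hx => Finset.sum_congr rfl fun x' hx' => ?_
          rw [sum_char]
          rw [Finset.mem_Icc] at hx hx'
          have h3 : (((x - x' : ℤ) : ZMod P) = 0) ↔ x = x' := by
            rw [intCast_zero_iff, sub_eq_zero]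
            rw [abs_lt]
            constructor <;> omega
          simp only [h3]
      _ = ∑ x ∈ Icc (1 : ℤ) n, u x * starRingEnd ℂ (u x) * P := by
          refine Finset.sum_congr rfl fun x hx => ?_
          simp [Finset.sum_ite_eq, hx]
      _ = ((P : ℝ) : ℂ) * ∑ x ∈ Icc (1 : ℤ) n, ((‖u x‖ ^ 2 : ℝ) : ℂ) := by
          rw [Finset.mul_sum]
          refine Finset.sum_congr rfl fun x _ => ?_
          rw [h1]
          push_cast
          ring
  exact_mod_cast h2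

theorem parseval_unit {n : ℕ} (hn : n ≤ P) (u : ℤ → ℂ) {A : ZMod P} (hA : IsUnit A)
    (hu : ∀ x, ‖u x‖ ≤ 1) : ∑ ξ : ZMod P, ‖ft P n u (A * ξ)‖ ^ 2 ≤ P * n := by
  have h1 : ∑ ξ : ZMod P, ‖ft P n u (A * ξ)‖ ^ 2 = ∑ ξ : ZMod P, ‖ft P n u ξ‖ ^ 2 := by
    obtain ⟨v, rfl⟩ := hA
    exact Equiv.sum_comp (Units.mulLeft v) (fun ξ => ‖ft P n u ξ‖ ^ 2)
  rw [h1, parseval hn]
  refine mul_le_mul_of_nonneg_left ?_ (Nat.cast_nonneg _)
  calc ∑ x ∈ Icc (1 : ℤ) n, ‖u x‖ ^ 2 ≤ ∑ x ∈ Icc (1 : ℤ) n, (1 : ℝ) :=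
        Finset.sum_le_sum fun x _ => pow_le_one₀ (norm_nonneg _) (hu x)
    _ = n := by simp

end Fourier

section

variable {a b c : ℤ} (ha : 0 < a) (hb : 0 < b) (hc : 0 < c)
include ha hb hc

theorem triple_ft {P n : ℕ} [NeZero P] (hP : (a + b + c) * n < P) (u : Fin 3 → ℤ → ℂ) :
    (P : ℂ) * ∑ y ∈ T a b c n 0, ∏ k, u k (y k)
      = ∑ ξ : ZMod P, ∏ k, ft P n (u k) ((![(a : ZMod P), (b : ZMod P), -(c : ZMod P)] k) * ξ) := by
  have h1 : ∀ ξ : ZMod P,
      ∏ k, ft P n (u k) ((![(a : ZMod P), (b : ZMod P), -(c : ZMod P)] k) * ξ)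
      = ∑ y ∈ box n, (∏ k, u k (y k)) * ZMod.stdAddChar (ξ * ((E a b c y : ℤ) : ZMod P)) := by
    intro ξ
    unfold ft box
    rw [Finset.prod_univ_sum]
    refine Finset.sum_congr rfl fun y _ => ?_
    rw [Finset.prod_mul_distrib]
    congr 1
    rw [Fin.prod_univ_three, ← AddChar.map_add_eq_mul, ← AddChar.map_add_eq_mul]
    congr 1
    simp only [E, Fin.isValue, Matrix.cons_val_zero, Matrix.cons_val_one, Matrix.cons_val]
    push_cast
    ring
  rw [Finset.sum_congr rfl fun ξ _ => h1 ξ, Finset.sum_comm]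
  have h2 : ∀ y ∈ box n, ∑ ξ : ZMod P, (∏ k, u k (y k)) *
        (ZMod.stdAddChar (ξ * ((E a b c y : ℤ) : ZMod P)) : ℂ)
      = if E a b c y = 0 then (P : ℂ) * ∏ k, u k (y k) else 0 := by
    intro y hy
    rw [← Finset.mul_sum, sum_char]
    rw [mem_box] at hy
    have h3 : (((E a b c y : ℤ) : ZMod P) = 0) ↔ E a b c y = 0 := by
      rw [intCast_zero_iff]
      have hn0 : (0 : ℤ) ≤ n := Int.natCast_nonneg n
      have p0 := hy 0
      have p1 := hy 1
      have p2 := hy 2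
      have q0 : a * y 0 ≤ a * n := mul_le_mul_of_nonneg_left p0.2 ha.le
      have q1 : b * y 1 ≤ b * n := mul_le_mul_of_nonneg_left p1.2 hb.le
      have q2 : c * y 2 ≤ c * n := mul_le_mul_of_nonneg_left p2.2 hc.le
      have r0 : 0 ≤ a * y 0 := mul_nonneg ha.le (by linarith [p0.1])
      have r1 : 0 ≤ b * y 1 := mul_nonneg hb.le (by linarith [p1.1])
      have r2 : 0 ≤ c * y 2 := mul_nonneg hc.le (by linarith [p2.1])
      have s0 : (a + b + c) * (n : ℤ) = a * n + b * n + c * n := by ring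
      have t0 : 0 ≤ a * (n : ℤ) := mul_nonneg ha.le hn0
      have t1 : 0 ≤ b * (n : ℤ) := mul_nonneg hb.le hn0
      have t2 : 0 ≤ c * (n : ℤ) := mul_nonneg hc.le hn0
      rw [abs_lt]
      unfold E
      constructor <;> linarith
    by_cases h4 : E a b c y = 0
    · rw [if_pos (h3.mpr h4), if_pos h4, mul_comm]
    · rw [if_neg (fun h => h4 (h3.mp h)), if_neg h4, mul_zero]
  rw [Finset.sum_congr rfl h2, ← Finset.sum_filter, Finset.mul_sum]
  rfl

theorem slot_bound {P n : ℕ} [NeZero P] (hP : (a + b + c) * n < P)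
    (hua : IsUnit (a : ZMod P)) (hub : IsUnit (b : ZMod P)) (huc : IsUnit (c : ZMod P))
    (u : Fin 3 → ℤ → ℂ) (k : Fin 3) {D : ℝ} (hD : ∀ ξ, ‖ft P n (u k) ξ‖ ≤ D)
    (hu : ∀ j, j ≠ k → ∀ x, ‖u j x‖ ≤ 1) :
    ‖∑ y ∈ T a b c n 0, ∏ k, u k (y k)‖ ≤ D * n := by
  have hPpos : (0 : ℝ) < P := by exact_mod_cast Nat.pos_of_ne_zero (NeZero.ne P)
  have hnP : n ≤ P := by
    have h1 : (n : ℤ) ≤ (a + b + c) * n := by
      have h2 : (0 : ℤ) ≤ n := Int.natCast_nonneg n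
      nlinarith
    omega
  have hD0 : 0 ≤ D := (norm_nonneg _).trans (hD 0)
  set A : Fin 3 → ZMod P := ![(a : ZMod P), (b : ZMod P), -(c : ZMod P)] with hA
  have hAu : ∀ k, IsUnit (A k) := by
    intro k
    fin_cases k
    · exact hua
    · exact hub
    · exact huc.neg
  have h1 := triple_ft ha hb hc hP u
  have h2 : (P : ℝ) * ‖∑ y ∈ T a b c n 0, ∏ k, u k (y k)‖
      ≤ ∑ ξ : ZMod P, ∏ k, ‖ft P n (u k) (A k * ξ)‖ := by
    have h3 : (P : ℝ) * ‖∑ y ∈ T a b c n 0, ∏ k, u k (y k)‖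
        = ‖(P : ℂ) * ∑ y ∈ T a b c n 0, ∏ k, u k (y k)‖ := by
      rw [norm_mul, Complex.norm_natCast]
    rw [h3, h1]
    refine (norm_sum_le _ _).trans (Finset.sum_le_sum fun ξ _ => ?_)
    rw [norm_prod]
  obtain ⟨i, j, hik, hjk, hprod⟩ : ∃ i j : Fin 3, i ≠ k ∧ j ≠ k ∧
      ∀ (F : Fin 3 → ℝ), ∏ l, F l = F k * (F i * F j) := by
    fin_cases k
    · exact ⟨1, 2, by decide, by decide, fun F => by rw [Fin.prod_univ_three]; simp; ring⟩
    · exact ⟨0, 2, by decide, by decide, fun F => by rw [Fin.prod_univ_three]; simp; ring⟩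
    · exact ⟨0, 1, by decide, by decide, fun F => by rw [Fin.prod_univ_three]; simp; ring⟩
  have h4 : ∀ ξ : ZMod P, ∏ k, ‖ft P n (u k) (A k * ξ)‖
      ≤ D * ((‖ft P n (u i) (A i * ξ)‖ ^ 2 + ‖ft P n (u j) (A j * ξ)‖ ^ 2) / 2) := by
    intro ξ
    rw [hprod]
    have h5 := hD (A k * ξ)
    have h6 := norm_nonneg (ft P n (u i) (A i * ξ))
    have h7 := norm_nonneg (ft P n (u j) (A j * ξ))
    have h8 := sq_nonneg (‖ft P n (u i) (A i * ξ)‖ - ‖ft P n (u j) (A j * ξ)‖)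
    refine mul_le_mul h5 ?_ (mul_nonneg h6 h7) hD0
    nlinarith
  have h9 := parseval_unit hnP (u i) (hAu i) (hu i hik)
  have h10 := parseval_unit hnP (u j) (hAu j) (hu j hjk)
  have h11 : (P : ℝ) * ‖∑ y ∈ T a b c n 0, ∏ k, u k (y k)‖ ≤ P * (D * n) := by
    refine h2.trans ((Finset.sum_le_sum fun ξ _ => h4 ξ).trans ?_)
    rw [← Finset.mul_sum, ← Finset.sum_div, Finset.sum_add_distrib]
    calc D * ((∑ ξ : ZMod P, ‖ft P n (u i) (A i * ξ)‖ ^ 2
          + ∑ ξ : ZMod P, ‖ft P n (u j) (A j * ξ)‖ ^ 2) / 2)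
        ≤ D * ((P * n + P * n) / 2) := by
          refine mul_le_mul_of_nonneg_left ?_ hD0
          linarith
      _ = P * (D * n) := by ring
  exact le_of_mul_le_mul_left h11 hPpos

theorem slot_bound_real {P n : ℕ} [NeZero P] (hP : (a + b + c) * n < P)
    (hua : IsUnit (a : ZMod P)) (hub : IsUnit (b : ZMod P)) (huc : IsUnit (c : ZMod P))
    (u : Fin 3 → ℤ → ℝ) (k : Fin 3) {D : ℝ} (hD : ∀ ξ, ‖ft P n (fun x => ((u k x : ℝ) : ℂ)) ξ‖ ≤ D)
    (hu : ∀ j, j ≠ k → ∀ x, |u j x| ≤ 1) :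
    |∑ y ∈ T a b c n 0, u 0 (y 0) * u 1 (y 1) * u 2 (y 2)| ≤ D * n := by
  have h := slot_bound ha hb hc hP hua hub huc (fun k x => ((u k x : ℝ) : ℂ)) k hD
    (fun j hj x => by
      rw [Complex.norm_real]
      exact hu j hj x)
  have h2 : ∑ y ∈ T a b c n 0, ∏ k, ((u k (y k) : ℝ) : ℂ)
      = ((∑ y ∈ T a b c n 0, u 0 (y 0) * u 1 (y 1) * u 2 (y 2) : ℝ) : ℂ) := by
    rw [Complex.ofReal_sum]
    refine Finset.sum_congr rfl fun y _ => ?_
    rw [Fin.prod_univ_three]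
    push_cast
    rfl
  rw [h2, Complex.norm_real] at h
  exact h

end

section Smooth

/-- Averaging along progressions of difference `m`. -/
noncomputable def smooth (f : ℤ → Fin 3) (J m : ℕ) : ℤ → Fin 3 → ℝ :=
  fun x i => (∑ j ∈ range J, ind f (x + j * m) i) / J

theorem smooth_simplex (f : ℤ → Fin 3) {J : ℕ} (hJ : 0 < J) (m : ℕ) : Simplex (smooth f J m) := by
  intro x
  have hJ' : (0 : ℝ) < J := by exact_mod_cast hJ
  constructor
  · intro i
    exact div_nonneg (Finset.sum_nonneg fun j _ => ((ind_simplex f) _).1 i) hJ'.le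
  · unfold smooth
    rw [← Finset.sum_div, Finset.sum_comm, Finset.sum_congr rfl fun j _ => ((ind_simplex f) _).2]
    simp [hJ'.ne']

theorem ind_le_one (f : ℤ → Fin 3) (x : ℤ) (i : Fin 3) : ind f x i ≤ 1 := by
  have h := ind_simplex f x
  rw [← h.2]
  exact Finset.single_le_sum (fun j _ => h.1 j) (Finset.mem_univ i)

theorem smooth_step (f : ℤ → Fin 3) {J : ℕ} (hJ : 0 < J) (m : ℕ) (x : ℤ) (i : Fin 3) :
    |smooth f J m (x + m) i - smooth f J m x i| ≤ 1 / J := by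
  have hJ' : (0 : ℝ) < J := by exact_mod_cast hJ
  unfold smooth
  rw [← sub_div, abs_div, abs_of_pos hJ']
  refine div_le_div_of_nonneg_right ?_ hJ'.le
  have h1 : ∑ j ∈ range J, ind f (x + m + j * m) i - ∑ j ∈ range J, ind f (x + j * m) i
      = ind f (x + J * m) i - ind f x i := by
    rw [← Finset.sum_sub_distrib]
    have h2 := Finset.sum_range_sub (fun j : ℕ => ind f (x + j * m) i) J
    simp only [Nat.cast_zero, zero_mul, add_zero] at h2
    rw [← h2]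
    refine Finset.sum_congr rfl fun j _ => ?_
    have h3 : x + m + j * m = x + ((j + 1 : ℕ) : ℤ) * m := by push_cast; ring
    rw [h3]
  rw [h1]
  have h4 := (ind_simplex f x).1 i
  have h5 := (ind_simplex f (x + J * m)).1 i
  have h6 := ind_le_one f x i
  have h7 := ind_le_one f (x + J * m) i
  rw [abs_le]
  constructor <;> linarith

theorem smooth_nat (f : ℤ → Fin 3) {J : ℕ} (hJ : 0 < J) (m : ℕ) (x : ℤ) (i : Fin 3) (s : ℕ) :
    |smooth f J m (x + m * s) i - smooth f J m x i| ≤ s * (1 / J) := by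
  induction s with
  | zero => simp
  | succ s ih =>
    have h1 := smooth_step f hJ m (x + m * s) i
    have h2 : x + (m : ℤ) * ((s + 1 : ℕ) : ℤ) = x + m * s + m := by push_cast; ring
    rw [h2]
    calc |smooth f J m (x + m * s + m) i - smooth f J m x i|
        ≤ |smooth f J m (x + m * s + m) i - smooth f J m (x + m * s) i|
          + |smooth f J m (x + m * s) i - smooth f J m x i| := abs_sub_le _ _ _
      _ ≤ 1 / J + s * (1 / J) := add_le_add h1 ih
      _ = ((s + 1 : ℕ) : ℝ) * (1 / J) := by push_cast; ring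

theorem smooth_int (f : ℤ → Fin 3) {J : ℕ} (hJ : 0 < J) (m : ℕ) (x : ℤ) (i : Fin 3) (s : ℤ) :
    |smooth f J m (x + m * s) i - smooth f J m x i| ≤ |(s : ℝ)| * (1 / J) := by
  rcases Int.eq_nat_or_neg s with ⟨t, rfl | rfl⟩
  · have := smooth_nat f hJ m x i t
    simpa using this
  · have h := smooth_nat f hJ m (x + m * (-(t : ℤ))) i t
    have h2 : x + (m : ℤ) * (-(t : ℤ)) + m * t = x := by ring
    rw [h2, abs_sub_comm] at h
    simpa using h

variable {P : ℕ} [NeZero P]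

theorem ft_shift {u : ℤ → ℂ} (hu : ∀ x, ‖u x‖ ≤ 1) (n s : ℕ) (ξ : ZMod P) :
    ‖ft P n u ξ - ft P n (fun x => u (x + s)) ξ‖
      ≤ ‖1 - (ZMod.stdAddChar (-(ξ * (s : ZMod P))) : ℂ)‖ * ‖ft P n u ξ‖ + 2 * s := by
  set F : ℤ → ℂ := fun x => u x * ZMod.stdAddChar (ξ * (x : ZMod P)) with hF
  set A : Finset ℤ := Icc 1 (n : ℤ) with hA
  set A' : Finset ℤ := Icc (1 + (s : ℤ)) (n + s) with hA'
  set z : ℂ := ZMod.stdAddChar (-(ξ * (s : ZMod P))) with hz
  have hz1 : ‖z‖ = 1 := norm_char _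
  have h1 : ft P n (fun x => u (x + s)) ξ = z * ∑ x ∈ A', F x := by
    have h2 : A' = A.map (addRightEmbedding (s : ℤ)) := by
      rw [hA, hA', Finset.map_add_right_Icc]
    rw [h2, Finset.sum_map, Finset.mul_sum]
    unfold ft
    refine Finset.sum_congr rfl fun x _ => ?_
    simp only [hF, hz, addRightEmbedding_apply]
    have h3 : ξ * (x : ZMod P) = -(ξ * (s : ZMod P)) + ξ * ((x + s : ℤ) : ZMod P) := by
      push_cast; ring
    rw [h3, AddChar.map_add_eq_mul]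
    ring
  have h0 : ft P n u ξ = ∑ x ∈ A, F x := rfl
  have hFn : ∀ x, ‖F x‖ ≤ 1 := by
    intro x
    rw [hF]
    simp only
    rw [norm_mul, norm_char, mul_one]
    exact hu x
  have hbd : ∀ (B C : Finset ℤ), B ⊆ C → C.card ≤ s → ‖∑ x ∈ B, F x‖ ≤ s := by
    intro B C hBC hC
    refine (norm_sum_le _ _).trans ((Finset.sum_le_sum fun x _ => hFn x).trans ?_)
    rw [Finset.sum_const, nsmul_eq_mul, mul_one]
    exact_mod_cast (Finset.card_le_card hBC).trans hC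
  have h4 : ‖∑ x ∈ A, F x - ∑ x ∈ A', F x‖ ≤ 2 * s := by
    rw [← Finset.sum_sdiff_sub_sum_sdiff]
    refine (norm_sub_le _ _).trans ?_
    have h5 := hbd (A \ A') (Icc 1 (s : ℤ)) (by
      intro x hx
      rw [Finset.mem_sdiff, hA, hA', Finset.mem_Icc, Finset.mem_Icc] at hx
      rw [Finset.mem_Icc]
      omega) (by simp)
    have h6 := hbd (A' \ A) (Icc ((n : ℤ) + 1) (n + s)) (by
      intro x hx
      rw [Finset.mem_sdiff, hA, hA', Finset.mem_Icc, Finset.mem_Icc] at hx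
      rw [Finset.mem_Icc]
      omega) (by simp)
    linarith
  have h7 : ft P n u ξ - ft P n (fun x => u (x + s)) ξ
      = (1 - z) * ft P n u ξ + z * (∑ x ∈ A, F x - ∑ x ∈ A', F x) := by
    rw [h1, h0]; ring
  rw [h7]
  refine (norm_add_le _ _).trans ?_
  rw [norm_mul, norm_mul, hz1, one_mul]
  linarith

theorem ft_smooth (f : ℤ → Fin 3) {J : ℕ} (hJ : 0 < J) (m n : ℕ) (i : Fin 3) (ξ : ZMod P) {D : ℝ}
    (hD : ∀ j : ℕ, j < J → ‖1 - (ZMod.stdAddChar (-(ξ * ((j * m : ℕ) : ZMod P))) : ℂ)‖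
      * ‖ft P n (fun x => ((ind f x i : ℝ) : ℂ)) ξ‖ ≤ D) :
    ‖ft P n (fun x => ((ind f x i - smooth f J m x i : ℝ) : ℂ)) ξ‖ ≤ D + 2 * J * m := by
  have hJ' : (0 : ℝ) < J := by exact_mod_cast hJ
  have hJc : (J : ℂ) ≠ 0 := by exact_mod_cast hJ.ne'
  set u : ℤ → ℂ := fun x => ((ind f x i : ℝ) : ℂ) with hu
  have hu1 : ∀ x, ‖u x‖ ≤ 1 := by
    intro x
    rw [hu]
    simp only
    rw [Complex.norm_real, Real.norm_eq_abs, abs_of_nonneg ((ind_simplex f x).1 i)]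
    exact ind_le_one f x i
  have h1 : (J : ℂ) * ft P n (fun x => ((ind f x i - smooth f J m x i : ℝ) : ℂ)) ξ
      = ∑ j ∈ range J, (ft P n u ξ - ft P n (fun x => u (x + ((j * m : ℕ) : ℤ))) ξ) := by
    unfold ft
    rw [Finset.mul_sum]
    simp_rw [← Finset.sum_sub_distrib]
    rw [Finset.sum_comm]
    refine Finset.sum_congr rfl fun x _ => ?_
    simp_rw [← sub_mul]
    rw [← Finset.sum_mul, ← mul_assoc]
    congr 1
    rw [Finset.sum_sub_distrib, Finset.sum_const, Finset.card_range, nsmul_eq_mul]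
    simp only [hu, smooth]
    push_cast
    field_simp
  have h2 : (J : ℝ) * ‖ft P n (fun x => ((ind f x i - smooth f J m x i : ℝ) : ℂ)) ξ‖
      ≤ J * (D + 2 * J * m) := by
    have h3 : (J : ℝ) * ‖ft P n (fun x => ((ind f x i - smooth f J m x i : ℝ) : ℂ)) ξ‖
        = ‖(J : ℂ) * ft P n (fun x => ((ind f x i - smooth f J m x i : ℝ) : ℂ)) ξ‖ := by
      rw [norm_mul, Complex.norm_natCast]
    rw [h3, h1]
    refine (norm_sum_le _ _).trans ?_
    have h4 : ∀ j ∈ range J,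
        ‖ft P n u ξ - ft P n (fun x => u (x + ((j * m : ℕ) : ℤ))) ξ‖ ≤ D + 2 * J * m := by
      intro j hj
      have h5 := ft_shift hu1 n (j * m) ξ
      have h6 := hD j (Finset.mem_range.mp hj)
      have h7 : (((j * m : ℕ)) : ℝ) ≤ J * m := by
        push_cast
        refine mul_le_mul_of_nonneg_right ?_ (Nat.cast_nonneg _)
        exact_mod_cast (Finset.mem_range.mp hj).le
      linarith
    refine (Finset.sum_le_sum h4).trans ?_
    rw [Finset.sum_const, Finset.card_range, nsmul_eq_mul]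
  exact le_of_mul_le_mul_left h2 hJ'

end Smooth

/-- The choice of the difference. -/
theorem exists_m {ε : ℝ} (hε : 0 < ε) {J : ℕ} (hJ : 0 < J) (CP : ℕ) :
    ∃ M : ℕ, ∀ (P n : ℕ) [NeZero P], 0 < n → n ≤ P → P ≤ CP * n → ∀ f : ℤ → Fin 3,
      ∃ m : ℕ, 1 ≤ m ∧ m ≤ M ∧ ∀ (i : Fin 3) (ξ : ZMod P),
        ‖ft P n (fun x => ((ind f x i - smooth f J m x i : ℝ) : ℂ)) ξ‖ ≤ ε * n + 2 * J * m := by
  classical
  have hJ' : (0 : ℝ) < J := by exact_mod_cast hJ
  set K : ℕ := ⌈3 * (CP : ℝ) / (ε / 2) ^ 2⌉₊ with hK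
  obtain ⟨M, hM⟩ := dirichlet_set K (div_pos hε hJ')
  refine ⟨M, ?_⟩
  intro P n _ hn hnP hPC f
  have hn' : (0 : ℝ) < n := by exact_mod_cast hn
  set u : Fin 3 → ℤ → ℂ := fun i x => ((ind f x i : ℝ) : ℂ) with hu
  have hu1 : ∀ i x, ‖u i x‖ ≤ 1 := by
    intro i x
    rw [hu]
    simp only
    rw [Complex.norm_real, Real.norm_eq_abs, abs_of_nonneg ((ind_simplex f x).1 i)]
    exact ind_le_one f x i
  set Sp : Finset (ZMod P) := Finset.univ.filter (fun ξ => ∃ i, ε / 2 * n ≤ ‖ft P n (u i) ξ‖)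
    with hSp
  have hcard : Sp.card ≤ K := by
    have h1 : (Sp.card : ℝ) * (ε / 2 * n) ^ 2 ≤ 3 * (CP * n * n) := by
      have h2 : (Sp.card : ℝ) * (ε / 2 * n) ^ 2 ≤ ∑ ξ ∈ Sp, ∑ i, ‖ft P n (u i) ξ‖ ^ 2 := by
        rw [← nsmul_eq_mul, ← Finset.sum_const]
        refine Finset.sum_le_sum fun ξ hξ => ?_
        obtain ⟨i, hi⟩ := (Finset.mem_filter.mp hξ).2
        have h3 : (ε / 2 * n) ^ 2 ≤ ‖ft P n (u i) ξ‖ ^ 2 :=
          pow_le_pow_left₀ (by positivity) hi 2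
        exact h3.trans (Finset.single_le_sum (f := fun i => ‖ft P n (u i) ξ‖ ^ 2)
          (fun j _ => sq_nonneg _) (Finset.mem_univ i))
      have h4 : ∑ ξ ∈ Sp, ∑ i, ‖ft P n (u i) ξ‖ ^ 2
          ≤ ∑ ξ : ZMod P, ∑ i, ‖ft P n (u i) ξ‖ ^ 2 :=
        Finset.sum_le_sum_of_subset_of_nonneg (Finset.subset_univ _)
          (fun ξ _ _ => Finset.sum_nonneg fun i _ => sq_nonneg _)
      have h4' : ∑ ξ : ZMod P, ∑ i, ‖ft P n (u i) ξ‖ ^ 2
          = ∑ i, ∑ ξ : ZMod P, ‖ft P n (u i) ξ‖ ^ 2 := Finset.sum_comm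
      rw [h4'] at h4
      have h5 : ∀ i, ∑ ξ : ZMod P, ‖ft P n (u i) ξ‖ ^ 2 ≤ CP * n * n := by
        intro i
        rw [parseval hnP]
        have h6 : ∑ x ∈ Icc (1 : ℤ) n, ‖u i x‖ ^ 2 ≤ n := by
          calc ∑ x ∈ Icc (1 : ℤ) n, ‖u i x‖ ^ 2 ≤ ∑ x ∈ Icc (1 : ℤ) n, (1 : ℝ) :=
                Finset.sum_le_sum fun x _ => pow_le_one₀ (norm_nonneg _) (hu1 i x)
            _ = n := by simp
        have h7 : (P : ℝ) ≤ CP * n := by exact_mod_cast hPC
        exact mul_le_mul h7 h6 (Finset.sum_nonneg fun x _ => sq_nonneg _) (by positivity)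
      have h8 : ∑ i, ∑ ξ : ZMod P, ‖ft P n (u i) ξ‖ ^ 2 ≤ 3 * (CP * n * n) := by
        refine (Finset.sum_le_sum fun i _ => h5 i).trans ?_
        rw [Finset.sum_const, Finset.card_univ, Fintype.card_fin, nsmul_eq_mul]
        norm_num
      linarith
    have h9 : (Sp.card : ℝ) ≤ 3 * (CP : ℝ) / (ε / 2) ^ 2 := by
      rw [le_div_iff₀ (by positivity)]
      have h10 : (0 : ℝ) < (n : ℝ) ^ 2 := by positivity
      refine le_of_mul_le_mul_right ?_ h10
      nlinarith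
    have h11 : (Sp.card : ℝ) ≤ (K : ℝ) := h9.trans (by rw [hK]; exact Nat.le_ceil _)
    exact_mod_cast h11
  obtain ⟨m, hm1, hm2, hm3⟩ := hM (Sp.image (fun ξ => (ZMod.stdAddChar ξ : ℂ)))
    (Finset.card_image_le.trans hcard) (by
      intro z hz
      obtain ⟨ξ, _, rfl⟩ := Finset.mem_image.mp hz
      exact norm_char ξ)
  refine ⟨m, hm1, hm2, fun i ξ => ?_⟩
  refine ft_smooth f hJ m n i ξ ?_
  intro j hj
  have hftn : ‖ft P n (u i) ξ‖ ≤ n := by
    unfold ft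
    refine (norm_sum_le _ _).trans ?_
    calc ∑ x ∈ Icc (1 : ℤ) n, ‖u i x * ZMod.stdAddChar (ξ * (x : ZMod P))‖
        ≤ ∑ x ∈ Icc (1 : ℤ) n, (1 : ℝ) := by
          refine Finset.sum_le_sum fun x _ => ?_
          rw [norm_mul, norm_char, mul_one]
          exact hu1 i x
      _ = n := by simp
  by_cases hξ : ξ ∈ Sp
  · have h1 := hm3 _ (Finset.mem_image_of_mem _ hξ)
    set w : ℂ := (ZMod.stdAddChar ξ : ℂ) ^ m with hw
    have hw1 : ‖w‖ = 1 := by rw [hw, norm_pow, norm_char, one_pow]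
    have h2 : (ZMod.stdAddChar (ξ * ((j * m : ℕ) : ZMod P)) : ℂ) = w ^ j := by
      rw [hw, ← pow_mul, mul_comm ξ, ← nsmul_eq_mul, AddChar.map_nsmul_eq_pow, mul_comm m j]
    have h3 : ‖1 - (ZMod.stdAddChar (-(ξ * ((j * m : ℕ) : ZMod P))) : ℂ)‖ = ‖w ^ j - 1‖ := by
      have h4 : 1 - (ZMod.stdAddChar (-(ξ * ((j * m : ℕ) : ZMod P))) : ℂ)
          = ZMod.stdAddChar (-(ξ * ((j * m : ℕ) : ZMod P))) * (w ^ j - 1) := by
        rw [mul_sub, ← h2, ← AddChar.map_add_eq_mul, neg_add_cancel, AddChar.map_zero_eq_one,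
          mul_one]
      rw [h4, norm_mul, norm_char, one_mul]
    rw [h3]
    have h5 := norm_pow_sub_one_le hw1 j
    have h6 : (j : ℝ) ≤ J := by exact_mod_cast hj.le
    have h7 : ‖w ^ j - 1‖ ≤ ε := by
      calc ‖w ^ j - 1‖ ≤ j * ‖w - 1‖ := h5
        _ ≤ J * (ε / J) := mul_le_mul h6 h1 (norm_nonneg _) hJ'.le
        _ = ε := by field_simp
    exact mul_le_mul h7 hftn (norm_nonneg _) hε.le
  · have h1 : ‖ft P n (u i) ξ‖ ≤ ε / 2 * n := by
      by_contra h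
      exact hξ (Finset.mem_filter.mpr ⟨Finset.mem_univ _, i, (not_le.mp h).le⟩)
    have h2 : ‖1 - (ZMod.stdAddChar (-(ξ * ((j * m : ℕ) : ZMod P))) : ℂ)‖ ≤ 2 := by
      refine (norm_sub_le _ _).trans ?_
      rw [norm_char, norm_one]
      norm_num
    calc ‖1 - (ZMod.stdAddChar (-(ξ * ((j * m : ℕ) : ZMod P))) : ℂ)‖ * ‖ft P n (u i) ξ‖
        ≤ 2 * (ε / 2 * n) := mul_le_mul h2 h1 (norm_nonneg _) (by norm_num)
      _ = ε * n := by ring

section

variable {a b c : ℤ} (ha : 0 < a) (hb : 0 < b) (hc : 0 < c)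
include ha hb hc

/-- Every colouring is close, for the counts of solutions, to a smooth fractional colouring. -/
theorem smoothing {ε : ℝ} (hε : 0 < ε) {J : ℕ} (hJ : 0 < J) :
    ∃ M : ℕ, ∀ n : ℕ, 0 < n → ∀ f : ℤ → Fin 3, ∃ m : ℕ, 1 ≤ m ∧ m ≤ M ∧
      ∀ Φ : Fin 3 → Fin 3 → Fin 3 → ℝ, (∀ i j k, |Φ i j k| ≤ 1) →
      |∑ y ∈ T a b c n 0, Gf Φ (ind f) y - ∑ y ∈ T a b c n 0, Gf Φ (smooth f J m) y|
        ≤ 81 * ((ε * n + 2 * J * m) * n) := by
  set s : ℕ := (a + b + c).toNat * (a * b * c).toNat with hs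
  obtain ⟨M, hM⟩ := exists_m hε hJ (s + 1)
  refine ⟨M, fun n hn f => ?_⟩
  set P : ℕ := s * n + 1 with hP
  have : NeZero P := ⟨by omega⟩
  have habc : 0 < a * b * c := mul_pos (mul_pos ha hb) hc
  have hsz : (s : ℤ) = (a + b + c) * (a * b * c) := by
    rw [hs]; push_cast
    rw [Int.toNat_of_nonneg (by linarith), Int.toNat_of_nonneg habc.le]
  have hsum : a + b + c ≤ s := by
    rw [hsz]
    nlinarith
  have hPz : (P : ℤ) = (a + b + c) * (a * b * c) * n + 1 := by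
    rw [hP]; push_cast; rw [hsz]
  have hP0 : (((a + b + c) * (a * b * c) * n + 1 : ℤ) : ZMod P) = 0 := by
    rw [← hPz]; simp
  push_cast at hP0
  have hua : IsUnit (a : ZMod P) := IsUnit.of_mul_eq_one
    (-(((a : ZMod P) + b + c) * (b * c) * n)) (by linear_combination -hP0)
  have hub : IsUnit (b : ZMod P) := IsUnit.of_mul_eq_one
    (-(((a : ZMod P) + b + c) * (a * c) * n)) (by linear_combination -hP0)
  have huc : IsUnit (c : ZMod P) := IsUnit.of_mul_eq_one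
    (-(((a : ZMod P) + b + c) * (a * b) * n)) (by linear_combination -hP0)
  have hn0 : (0 : ℤ) ≤ n := Int.natCast_nonneg n
  have hPlt : (a + b + c) * n < P := by
    have : (P : ℤ) = s * n + 1 := by rw [hP]; push_cast; ring
    rw [this]
    have := mul_le_mul_of_nonneg_right hsum hn0
    linarith
  have hs1 : 1 ≤ s := by
    have : (1 : ℤ) ≤ s := by linarith
    exact_mod_cast this
  have hnP : n ≤ P := by
    rw [hP]; nlinarith
  have hPC : P ≤ (s + 1) * n := by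
    rw [hP]; nlinarith
  obtain ⟨m, hm1, hm2, hm3⟩ := hM P n hn hnP hPC f
  refine ⟨m, hm1, hm2, fun Φ hΦ => ?_⟩
  set g := smooth f J m with hg
  have hgS : Simplex g := smooth_simplex f hJ m
  have hg1 : ∀ x i, |g x i| ≤ 1 := by
    intro x i
    rw [abs_of_nonneg ((hgS x).1 i), ← (hgS x).2]
    exact Finset.single_le_sum (fun j _ => (hgS x).1 j) (Finset.mem_univ i)
  have hi1 : ∀ x i, |ind f x i| ≤ 1 := by
    intro x i
    rw [abs_of_nonneg ((ind_simplex f x).1 i)]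
    exact ind_le_one f x i
  set D : ℝ := ε * n + 2 * J * m with hD
  have key : ∀ i j k : Fin 3, |∑ y ∈ T a b c n 0, (ind f (y 0) i * ind f (y 1) j * ind f (y 2) k
      - g (y 0) i * g (y 1) j * g (y 2) k)| ≤ 3 * (D * n) := by
    intro i j k
    have e1 := slot_bound_real ha hb hc hPlt hua hub huc
      (fun l x => (![ind f x i - g x i, ind f x j, ind f x k] : Fin 3 → ℝ) l) 0
      (fun ξ => by simpa using hm3 i ξ) (by
        intro l hl x
        fin_cases l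
        · exact absurd rfl hl
        · exact hi1 x j
        · exact hi1 x k)
    have e2 := slot_bound_real ha hb hc hPlt hua hub huc
      (fun l x => (![g x i, ind f x j - g x j, ind f x k] : Fin 3 → ℝ) l) 1
      (fun ξ => by simpa using hm3 j ξ) (by
        intro l hl x
        fin_cases l
        · exact hg1 x i
        · exact absurd rfl hl
        · exact hi1 x k)
    have e3 := slot_bound_real ha hb hc hPlt hua hub huc
      (fun l x => (![g x i, g x j, ind f x k - g x k] : Fin 3 → ℝ) l) 2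
      (fun ξ => by simpa using hm3 k ξ) (by
        intro l hl x
        fin_cases l
        · exact hg1 x i
        · exact hg1 x j
        · exact absurd rfl hl)
    simp only [Fin.isValue, Matrix.cons_val_zero, Matrix.cons_val_one, Matrix.cons_val] at e1 e2 e3
    have e4 : ∑ y ∈ T a b c n 0, (ind f (y 0) i * ind f (y 1) j * ind f (y 2) k
        - g (y 0) i * g (y 1) j * g (y 2) k)
        = ∑ y ∈ T a b c n 0, (ind f (y 0) i - g (y 0) i) * ind f (y 1) j * ind f (y 2) k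
        + ∑ y ∈ T a b c n 0, g (y 0) i * (ind f (y 1) j - g (y 1) j) * ind f (y 2) k
        + ∑ y ∈ T a b c n 0, g (y 0) i * g (y 1) j * (ind f (y 2) k - g (y 2) k) := by
      rw [← Finset.sum_add_distrib, ← Finset.sum_add_distrib]
      refine Finset.sum_congr rfl fun y _ => ?_
      ring
    rw [e4]
    refine (abs_add_three _ _ _).trans ?_
    linarith
  have h1 : ∑ y ∈ T a b c n 0, Gf Φ (ind f) y - ∑ y ∈ T a b c n 0, Gf Φ g y
      = ∑ i, ∑ j, ∑ k, Φ i j k * ∑ y ∈ T a b c n 0,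
        (ind f (y 0) i * ind f (y 1) j * ind f (y 2) k - g (y 0) i * g (y 1) j * g (y 2) k) := by
    rw [← Finset.sum_sub_distrib]
    have h2 : ∀ y ∈ T a b c n 0, Gf Φ (ind f) y - Gf Φ g y = ∑ i, ∑ j, ∑ k, Φ i j k *
        (ind f (y 0) i * ind f (y 1) j * ind f (y 2) k - g (y 0) i * g (y 1) j * g (y 2) k) := by
      intro y _
      unfold Gf
      rw [← Finset.sum_sub_distrib]
      refine Finset.sum_congr rfl fun i _ => ?_
      rw [← Finset.sum_sub_distrib]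
      refine Finset.sum_congr rfl fun j _ => ?_
      rw [← Finset.sum_sub_distrib]
      refine Finset.sum_congr rfl fun k _ => ?_
      ring
    rw [Finset.sum_congr rfl h2, Finset.sum_comm]
    refine Finset.sum_congr rfl fun i _ => ?_
    rw [Finset.sum_comm]
    refine Finset.sum_congr rfl fun j _ => ?_
    rw [Finset.sum_comm]
    refine Finset.sum_congr rfl fun k _ => ?_
    rw [Finset.mul_sum]
  rw [h1]
  have h3 : ∀ i j k : Fin 3, |Φ i j k * ∑ y ∈ T a b c n 0,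
      (ind f (y 0) i * ind f (y 1) j * ind f (y 2) k - g (y 0) i * g (y 1) j * g (y 2) k)|
      ≤ 3 * (D * n) := by
    intro i j k
    rw [abs_mul]
    calc |Φ i j k| * _ ≤ 1 * _ := mul_le_mul_of_nonneg_right (hΦ i j k) (abs_nonneg _)
      _ ≤ 3 * (D * n) := by rw [one_mul]; exact key i j k
  refine (Finset.abs_sum_le_sum_abs _ _).trans ?_
  refine (Finset.sum_le_sum fun i _ => (Finset.abs_sum_le_sum_abs _ _).trans
    (Finset.sum_le_sum fun j _ => (Finset.abs_sum_le_sum_abs _ _).trans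
      (Finset.sum_le_sum fun k _ => h3 i j k))).trans ?_
  simp only [Finset.sum_const, Finset.card_univ, Fintype.card_fin, nsmul_eq_mul]
  apply le_of_eq
  push_cast
  ring

end

end Pool.Agent.R804.RbLim
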