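import Pool.Agent.R804.RbLim.Transfer

/-!
# The transfer lemma
-/

set_option autoImplicit false
set_option linter.unusedSectionVars false

open Finset

namespace Pool.Agent.R804.RbLim

section

variable {a b c : ℤ} (ha : 0 < a) (hb : 0 < b) (hc : 0 < c)
include ha hb hc

theorem R_le {m Q : ℕ} (hm : 0 < m) (y : Fin 3 → ℤ) : R a b c m Q y ≤ Q * Q := by
  have hm' : (0 : ℤ) < m := by exact_mod_cast hm
  unfold R
  set S := (sbox Q).filter (fun s => E a b c (lift m Q y s) = 0) with hS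
  rcases S.eq_empty_or_nonempty with h | ⟨s₀, hs₀⟩
  · rw [h]; simp
  have hval : ∀ s ∈ S, E a b c s = E a b c s₀ := by
    intro s hs
    rw [hS, Finset.mem_filter, E_lift] at hs hs₀
    have h1 : (m : ℤ) * E a b c s = m * E a b c s₀ := by linarith [hs.2, hs₀.2]
    exact mul_left_cancel₀ hm'.ne' h1
  have h := card_le_of_coord ha hb hc (w := E a b c s₀) (S := S) (A := Ico (0 : ℤ) Q)
    (B := Ico (0 : ℤ) Q) (i := 0) (j := 1) (by decide) hval
    (fun s hs => Finset.mem_Ico.mpr (mem_sbox.mp (Finset.mem_filter.mp hs).1 0))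
    (fun s hs => Finset.mem_Ico.mpr (mem_sbox.mp (Finset.mem_filter.mp hs).1 1))
  simpa using h

/-- The condition for a digit in terms of the multiple of `m`. -/
theorem lift_iff {m Q : ℕ} (hm : 0 < m) {y s : Fin 3 → ℤ} {e : ℤ} (hy : E a b c y = m * e) :
    E a b c (lift m Q y s) = 0
      ↔ e + (Q - 1) * E a b c (fun k => (y k - 1) / m) + E a b c s = 0 := by
  have hm' : (0 : ℤ) < m := by exact_mod_cast hm
  rw [E_lift, hy]
  constructor
  · intro h
    have h1 : (m : ℤ) * (e + (Q - 1) * E a b c (fun k => (y k - 1) / m) + E a b c s) = m * 0 := by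
      linarith
    exact mul_left_cancel₀ hm'.ne' h1
  · intro h
    have h1 : (m : ℤ) * (e + (Q - 1) * E a b c (fun k => (y k - 1) / m) + E a b c s) = m * 0 := by
      rw [h]
    linarith

/-- The value of the form at the base digits. -/
theorem E_div {m : ℕ} (hm : 0 < m) {y : Fin 3 → ℤ} {e : ℤ} (hy : E a b c y = m * e) :
    |E a b c (fun k => (y k - 1) / m) - e| ≤ a + b + c := by
  have hm' : (0 : ℤ) < m := by exact_mod_cast hm
  have h1 : ∀ k, 0 ≤ (y k - 1) % (m : ℤ) + 1 ∧ (y k - 1) % (m : ℤ) + 1 ≤ m := by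
    intro k
    have g1 := Int.emod_nonneg (y k - 1) hm'.ne'
    have g2 := Int.emod_lt_of_pos (y k - 1) hm'
    constructor <;> linarith
  have h2 := E_bound ha hb hc h1
  have h3 : E a b c y = E a b c (fun k => (y k - 1) % (m : ℤ) + 1)
      + m * E a b c (fun k => (y k - 1) / m) := by
    have g : ∀ k, y k = ((y k - 1) % (m : ℤ) + 1) + m * ((y k - 1) / m) := by
      intro k
      have := Int.emod_add_mul_ediv (y k - 1) m
      linarith
    unfold E
    beta_reduce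
    have g0 := g 0
    have g1 := g 1
    have g2 := g 2
    generalize (y 0 - 1) % (m : ℤ) = r0 at *
    generalize (y 1 - 1) % (m : ℤ) = r1 at *
    generalize (y 2 - 1) % (m : ℤ) = r2 at *
    generalize (y 0 - 1) / (m : ℤ) = q0 at *
    generalize (y 1 - 1) / (m : ℤ) = q1 at *
    generalize (y 2 - 1) / (m : ℤ) = q2 at *
    rw [g0, g1, g2]
    ring
  rw [hy] at h3
  have h4 : (m : ℤ) * (E a b c (fun k => (y k - 1) / m) - e)
      = - E a b c (fun k => (y k - 1) % (m : ℤ) + 1) := by linarith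
  have h5 : (m : ℤ) * |E a b c (fun k => (y k - 1) / m) - e| ≤ m * (a + b + c) := by
    rw [← abs_of_pos hm', ← abs_mul, abs_of_pos hm', h4, abs_neg]
    linarith
  exact le_of_mul_le_mul_left h5 hm'

theorem E_sbox {Q : ℕ} {s : Fin 3 → ℤ} (hs : s ∈ sbox Q) : |E a b c s| ≤ (a + b + c) * Q :=
  E_bound ha hb hc (fun k => ⟨(mem_sbox.mp hs k).1, (mem_sbox.mp hs k).2.le⟩)

/-- The multiple of `m` is bounded if there is a digit. -/
theorem e_bound {m Q : ℕ} (hm : 0 < m) (hQ : 0 < Q) {y s : Fin 3 → ℤ} {e : ℤ}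
    (hy : E a b c y = m * e) (hs : s ∈ sbox Q) (h : E a b c (lift m Q y s) = 0) :
    -(2 * (a + b + c)) ≤ e ∧ e ≤ 2 * (a + b + c) := by
  have hQ' : (0 : ℤ) < Q := by exact_mod_cast hQ
  rw [lift_iff ha hb hc hm hy] at h
  have h1 := abs_le.mp (E_div ha hb hc hm hy)
  have h2 := abs_le.mp (E_sbox ha hb hc hs)
  set D := E a b c (fun k => (y k - 1) / m) with hD
  set S := E a b c s with hS
  -- Q e = -S - (Q-1) (D - e)
  have h3 : (Q : ℤ) * e = -S - (Q - 1) * (D - e) := by linarith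
  have hQ1 : (0 : ℤ) ≤ Q - 1 := by linarith
  have h4 := mul_le_mul_of_nonneg_left h1.2 hQ1
  have h5 := mul_le_mul_of_nonneg_left h1.1 hQ1
  have hs0 : 0 < a + b + c := by linarith
  constructor
  · have h6 : (Q : ℤ) * (-(2 * (a + b + c))) ≤ Q * e := by
      rw [h3]; nlinarith
    exact le_of_mul_le_mul_left h6 hQ'
  · have h6 : (Q : ℤ) * e ≤ Q * (2 * (a + b + c)) := by
      rw [h3]; nlinarith
    exact le_of_mul_le_mul_left h6 hQ'

/-- Regrouping the sum of the weights. -/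
theorem sum_regroup {m Q : ℕ} (hm : 0 < m) (hQ : 0 < Q) (n : ℕ) (G : (Fin 3 → ℤ) → ℝ) :
    ∑ y ∈ box n, G y * (R a b c m Q y : ℝ)
      = ∑ e ∈ Icc (-(2 * (a + b + c))) (2 * (a + b + c)),
        ∑ y ∈ T a b c n (m * e), G y * (R a b c m Q y : ℝ) := by
  have hm' : (0 : ℤ) < m := by exact_mod_cast hm
  have h1 : ∀ e ∈ Icc (-(2 * (a + b + c))) (2 * (a + b + c)),
      ∑ y ∈ T a b c n (m * e), G y * (R a b c m Q y : ℝ)
      = ∑ y ∈ box n, if E a b c y = m * e then G y * (R a b c m Q y : ℝ) else 0 := by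
    intro e _
    unfold T
    rw [Finset.sum_filter]
  rw [Finset.sum_congr rfl h1, Finset.sum_comm]
  refine Finset.sum_congr rfl fun y _ => ?_
  by_cases hR : R a b c m Q y = 0
  · rw [hR]
    simp
  · obtain ⟨s, hs⟩ := Finset.card_pos.mp (Nat.pos_of_ne_zero hR)
    rw [Finset.mem_filter] at hs
    have hdiv : (m : ℤ) ∣ E a b c y := by
      have h2 := hs.2
      rw [E_lift] at h2
      refine ⟨-((Q - 1) * E a b c (fun k => (y k - 1) / m) + E a b c s), ?_⟩
      linarith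
    obtain ⟨e, he⟩ := hdiv
    have hb2 := e_bound ha hb hc hm hQ he hs.1 hs.2
    rw [Finset.sum_eq_single e]
    · rw [if_pos he]
    · intro e' _ hne
      rw [if_neg]
      intro h3
      apply hne
      rw [he] at h3
      exact (mul_left_cancel₀ hm'.ne' h3).symm
    · intro h3
      exact absurd (Finset.mem_Icc.mpr hb2) h3

/-- The total number of digits over all shifts. -/
theorem sum_R {m Q : ℕ} (hm : 0 < m) (hQ : 0 < Q) {τ : Fin 3 → ℤ} (hτ : E a b c τ = 1)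
    {y : Fin 3 → ℤ} (hy : E a b c y = 0) :
    ∑ e ∈ Icc (-(2 * (a + b + c))) (2 * (a + b + c)),
      R a b c m Q (y + (m * e) • τ) = Q * Q := by
  have hm' : (0 : ℤ) < m := by exact_mod_cast hm
  have hQ' : (0 : ℤ) < Q := by exact_mod_cast hQ
  set D := E a b c (fun k => (y k - 1) / m) with hD
  rw [← card_mod a b c hQ hτ (D)]
  have hEe : ∀ e : ℤ, E a b c (y + (m * e) • τ) = m * e := by
    intro e
    rw [E_add, E_smul, hy, hτ]; ring
  have hDe : ∀ e : ℤ, E a b c (fun k => ((y + (m * e) • τ) k - 1) / m) = D + e := by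
    intro e
    have h1 : (fun k => ((y + (m * e) • τ) k - 1) / (m : ℤ))
        = (fun k => (y k - 1) / (m : ℤ)) + e • τ := by
      funext k
      have h2 : (y + ((m : ℤ) * e) • τ) k - 1 = (y k - 1) + m * (e * τ k) := by
        simp [Pi.add_apply, Pi.smul_apply]; ring
      rw [h2, Int.add_mul_ediv_left _ _ hm'.ne']
      simp
    rw [h1, E_add, E_smul, hτ]
    ring
  have hcond : ∀ (e : ℤ) (s : Fin 3 → ℤ), E a b c (lift m Q (y + (m * e) • τ) s) = 0
      ↔ Q * e + (Q - 1) * D + E a b c s = 0 := by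
    intro e s
    rw [lift_iff ha hb hc hm (hEe e), hDe]
    constructor <;> intro h <;> linarith
  have hset : (sbox Q).filter (fun s => (Q : ℤ) ∣ E a b c s - D)
      = (Icc (-(2 * (a + b + c))) (2 * (a + b + c))).biUnion (fun e =>
        (sbox Q).filter (fun s => E a b c (lift m Q (y + (m * e) • τ) s) = 0)) := by
    ext s
    rw [Finset.mem_filter, Finset.mem_biUnion]
    constructor
    · rintro ⟨hs, t, ht⟩
      have h1 : E a b c (lift m Q (y + (m * (-(t + D))) • τ) s) = 0 := by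
        rw [hcond]; linarith
      have hb2 := e_bound ha hb hc hm hQ (hEe (-(t + D))) hs h1
      exact ⟨-(t + D), Finset.mem_Icc.mpr hb2, Finset.mem_filter.mpr ⟨hs, h1⟩⟩
    · rintro ⟨e, _, he⟩
      rw [Finset.mem_filter, hcond] at he
      exact ⟨he.1, -e - D, by linarith [he.2]⟩
  rw [hset, Finset.card_biUnion]
  · rfl
  · intro e _ e' _ hne
    rw [Function.onFun, Finset.disjoint_left]
    intro s h1 h2
    rw [Finset.mem_filter, hcond] at h1 h2
    apply hne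
    have h3 : (Q : ℤ) * e = Q * e' := by linarith [h1.2, h2.2]
    exact mul_left_cancel₀ hQ'.ne' h3

/-- One shift. -/
theorem shift_diff {m Q : ℕ} (hm : 0 < m) (n : ℕ) {τ : Fin 3 → ℤ} (hτ : E a b c τ = 1)
    {G : (Fin 3 → ℤ) → ℝ} (hG : ∀ y, |G y| ≤ 1) {η : ℝ}
    (hη : 0 ≤ η) (hL : ∀ (y : Fin 3 → ℤ) (t : ℤ), |G (y + (m * t) • τ) - G y| ≤ η * |(t : ℝ)|)
    (e : ℤ) :
    |∑ y ∈ T a b c n (m * e), G y * (R a b c m Q y : ℝ)
      - ∑ y ∈ T a b c n 0, G y * (R a b c m Q (y + (m * e) • τ) : ℝ)|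
      ≤ (Q : ℝ) ^ 2 * (2 * (m * |(e : ℝ)| * (∑ k, ((τ k).natAbs : ℝ)) * n)
        + η * |(e : ℝ)| * (n : ℝ) ^ 2) := by
  set δ : Fin 3 → ℤ := (m * e) • τ with hδ
  have hE0 : E a b c δ = m * e := by rw [hδ, E_smul, hτ, mul_one]
  have hRle : ∀ y, (R a b c m Q y : ℝ) ≤ (Q : ℝ) ^ 2 := by
    intro y
    have := R_le ha hb hc (Q := Q) hm y
    have h2 : (R a b c m Q y : ℝ) ≤ ((Q * Q : ℕ) : ℝ) := by exact_mod_cast this
    rw [pow_two]
    exact_mod_cast h2
  have hR0 : ∀ y, (0 : ℝ) ≤ (R a b c m Q y : ℝ) := fun y => Nat.cast_nonneg _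
  have hterm : ∀ y z, |G y * (R a b c m Q z : ℝ)| ≤ (Q : ℝ) ^ 2 := by
    intro y z
    rw [abs_mul, abs_of_nonneg (hR0 z)]
    calc |G y| * (R a b c m Q z : ℝ) ≤ 1 * (Q : ℝ) ^ 2 :=
          mul_le_mul (hG y) (hRle z) (hR0 z) zero_le_one
      _ = (Q : ℝ) ^ 2 := one_mul _
  -- split both sums
  have s1 := (Finset.sum_filter_add_sum_filter_not (T a b c n (m * e)) (fun y => y + (-δ) ∉ box n)
    (fun y => G y * (R a b c m Q y : ℝ)))
  have s2 := (Finset.sum_filter_add_sum_filter_not (T a b c n 0) (fun y => y + δ ∉ box n)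
    (fun y => G y * (R a b c m Q (y + δ) : ℝ)))
  -- the good parts correspond
  have s3 : ∑ y ∈ (T a b c n (m * e)).filter (fun y => ¬ (y + (-δ) ∉ box n)),
        G y * (R a b c m Q y : ℝ)
      = ∑ y ∈ (T a b c n 0).filter (fun y => ¬ (y + δ ∉ box n)),
        G (y + δ) * (R a b c m Q (y + δ) : ℝ) := by
    refine Finset.sum_bij' (fun y _ => y + (-δ)) (fun y _ => y + δ) ?_ ?_ ?_ ?_ ?_
    · intro y hy
      rw [Finset.mem_filter, not_not, T, Finset.mem_filter] at hy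
      rw [Finset.mem_filter, not_not, T, Finset.mem_filter]
      refine ⟨⟨hy.2, ?_⟩, ?_⟩
      · rw [← sub_eq_add_neg, E_sub, hy.1.2, hE0, sub_self]
      · rw [neg_add_cancel_right]; exact hy.1.1
    · intro y hy
      rw [Finset.mem_filter, not_not, T, Finset.mem_filter] at hy
      rw [Finset.mem_filter, not_not, T, Finset.mem_filter]
      refine ⟨⟨hy.2, ?_⟩, ?_⟩
      · rw [E_add, hy.1.2, hE0, zero_add]
      · rw [add_neg_cancel_right]; exact hy.1.1
    · intro y _; rw [neg_add_cancel_right]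
    · intro y _; rw [add_neg_cancel_right]
    · intro y _; rw [neg_add_cancel_right]
  have hbd : ∀ (S : Finset (Fin 3 → ℤ)) (f : (Fin 3 → ℤ) → ℝ) (B : ℝ), (∀ y ∈ S, |f y| ≤ B) →
      |∑ y ∈ S, f y| ≤ S.card * B := by
    intro S f B h
    refine (Finset.abs_sum_le_sum_abs _ _).trans ?_
    refine (Finset.sum_le_sum h).trans ?_
    rw [Finset.sum_const, nsmul_eq_mul]
  have b1 := hbd ((T a b c n (m * e)).filter (fun y => y + (-δ) ∉ box n))
    (fun y => G y * (R a b c m Q y : ℝ)) ((Q : ℝ) ^ 2) (fun y _ => hterm y y)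
  have b2 := hbd ((T a b c n 0).filter (fun y => y + δ ∉ box n))
    (fun y => G y * (R a b c m Q (y + δ) : ℝ)) ((Q : ℝ) ^ 2) (fun y _ => hterm y (y + δ))
  have b3 := hbd ((T a b c n 0).filter (fun y => ¬ (y + δ ∉ box n)))
    (fun y => (G (y + δ) - G y) * (R a b c m Q (y + δ) : ℝ)) (η * |(e : ℝ)| * (Q : ℝ) ^ 2)
    (fun y _ => by
      rw [abs_mul, abs_of_nonneg (hR0 _)]
      exact mul_le_mul (hL y e) (hRle _) (hR0 _) (mul_nonneg hη (abs_nonneg _)))
  have c1 := card_leave ha hb hc n (m * e) (-δ)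
  have c2 := card_leave ha hb hc n 0 δ
  have c3 : ((T a b c n 0).filter (fun y => ¬ (y + δ ∉ box n))).card ≤ n * n :=
    (Finset.card_filter_le _ _).trans (card_T_le ha hb hc n 0)
  have hsum : (∑ k, (δ k).natAbs : ℕ) = m * e.natAbs * ∑ k, (τ k).natAbs := by
    rw [Finset.mul_sum]
    refine Finset.sum_congr rfl fun k _ => ?_
    rw [hδ, Pi.smul_apply, smul_eq_mul, Int.natAbs_mul, Int.natAbs_mul, Int.natAbs_natCast]
  have hsum' : (∑ k, ((-δ) k).natAbs : ℕ) = m * e.natAbs * ∑ k, (τ k).natAbs := by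
    rw [← hsum]
    refine Finset.sum_congr rfl fun k _ => ?_
    rw [Pi.neg_apply, Int.natAbs_neg]
  rw [hsum'] at c1
  rw [hsum] at c2
  set A : ℝ := m * |(e : ℝ)| * (∑ k, ((τ k).natAbs : ℝ)) * n with hA
  have habs : ((e.natAbs : ℕ) : ℝ) = |(e : ℝ)| := by
    rw [Nat.cast_natAbs, Int.cast_abs]
  have c1' : (((T a b c n (m * e)).filter (fun y => y + (-δ) ∉ box n)).card : ℝ) ≤ A := by
    have : ((((T a b c n (m * e)).filter (fun y => y + (-δ) ∉ box n)).card : ℕ) : ℝ)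
        ≤ ((m * e.natAbs * (∑ k, (τ k).natAbs) * n : ℕ) : ℝ) := by exact_mod_cast c1
    refine this.trans (le_of_eq ?_)
    rw [hA]
    push_cast
    rw [← Int.cast_abs]
    simp
  have c2' : (((T a b c n 0).filter (fun y => y + δ ∉ box n)).card : ℝ) ≤ A := by
    have : ((((T a b c n 0).filter (fun y => y + δ ∉ box n)).card : ℕ) : ℝ)
        ≤ ((m * e.natAbs * (∑ k, (τ k).natAbs) * n : ℕ) : ℝ) := by exact_mod_cast c2
    refine this.trans (le_of_eq ?_)
    rw [hA]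
    push_cast
    rw [← Int.cast_abs]
    simp
  have c3' : (((T a b c n 0).filter (fun y => ¬ (y + δ ∉ box n))).card : ℝ) ≤ (n : ℝ) ^ 2 := by
    rw [pow_two]
    exact_mod_cast c3
  have hQ2 : (0 : ℝ) ≤ (Q : ℝ) ^ 2 := by positivity
  have d1 := b1.trans (mul_le_mul_of_nonneg_right c1' hQ2)
  have d2 := b2.trans (mul_le_mul_of_nonneg_right c2' hQ2)
  have d3 := b3.trans (mul_le_mul_of_nonneg_right c3'
    (mul_nonneg (mul_nonneg hη (abs_nonneg _)) hQ2))
  have s4 : ∑ y ∈ (T a b c n 0).filter (fun y => ¬ (y + δ ∉ box n)),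
        (G (y + δ) - G y) * (R a b c m Q (y + δ) : ℝ)
      = ∑ y ∈ (T a b c n 0).filter (fun y => ¬ (y + δ ∉ box n)),
        G (y + δ) * (R a b c m Q (y + δ) : ℝ)
      - ∑ y ∈ (T a b c n 0).filter (fun y => ¬ (y + δ ∉ box n)),
        G y * (R a b c m Q (y + δ) : ℝ) := by
    rw [← Finset.sum_sub_distrib]
    exact Finset.sum_congr rfl fun y _ => by ring
  rw [← s1, ← s2, s3]
  rw [s4] at d3
  rw [abs_le] at *
  constructor <;> nlinarith [d1.1, d1.2, d2.1, d2.2, d3.1, d3.2]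

/-- The transfer lemma. -/
theorem transfer {τ : Fin 3 → ℤ} (hτ : E a b c τ = 1) : ∃ C : ℝ, 0 ≤ C ∧
    ∀ (m l Q : ℕ), 0 < m → 0 < Q → ∀ (G : (Fin 3 → ℤ) → ℝ) (η : ℝ), 0 ≤ η →
      (∀ y, |G y| ≤ 1) →
      (∀ (y : Fin 3 → ℤ) (t : ℤ), |G (y + (m * t) • τ) - G y| ≤ η * |(t : ℝ)|) →
      |∑ x ∈ T a b c (m * l * Q) 0, G (psi m Q x) - (Q : ℝ) ^ 2 * ∑ y ∈ T a b c (m * l) 0, G y|
        ≤ C * (Q : ℝ) ^ 2 * (m * ((m * l : ℕ) : ℝ) + η * ((m * l : ℕ) : ℝ) ^ 2) := by
  set Γ : ℝ := ∑ k, ((τ k).natAbs : ℝ) with hΓ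
  set K : ℤ := 2 * (a + b + c) with hK
  have hΓ0 : 0 ≤ Γ := Finset.sum_nonneg fun _ _ => Nat.cast_nonneg _
  have hK0 : 0 ≤ K := by rw [hK]; linarith
  have hK0' : (0 : ℝ) ≤ (K : ℝ) := by exact_mod_cast hK0
  refine ⟨((Icc (-K) K).card : ℝ) * (2 * (K : ℝ) * Γ + K), by positivity, ?_⟩
  intro m l Q hm hQ G η hη hG hL
  set n : ℕ := m * l with hn
  rw [sum_T_lift a b c hm hQ G, sum_regroup ha hb hc hm hQ]
  have h1 : (Q : ℝ) ^ 2 * ∑ y ∈ T a b c n 0, G y
      = ∑ e ∈ Icc (-K) K, ∑ y ∈ T a b c n 0, G y * (R a b c m Q (y + (m * e) • τ) : ℝ) := by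
    rw [Finset.sum_comm, Finset.mul_sum]
    refine Finset.sum_congr rfl fun y hy => ?_
    rw [← Finset.mul_sum]
    have h2 := sum_R ha hb hc hm hQ hτ (mem_T.mp hy).2
    have h3 : ((∑ e ∈ Icc (-K) K, R a b c m Q (y + (m * e) • τ) : ℕ) : ℝ) = (Q : ℝ) ^ 2 := by
      rw [h2]; push_cast; ring
    rw [← h3]
    push_cast
    ring
  rw [h1, ← Finset.sum_sub_distrib]
  refine (Finset.abs_sum_le_sum_abs _ _).trans ?_
  have h4 : ∀ e ∈ Icc (-K) K, |∑ y ∈ T a b c n (m * e), G y * (R a b c m Q y : ℝ)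
      - ∑ y ∈ T a b c n 0, G y * (R a b c m Q (y + (m * e) • τ) : ℝ)|
      ≤ (Q : ℝ) ^ 2 * ((2 * (K : ℝ) * Γ + K) * (m * (n : ℝ) + η * (n : ℝ) ^ 2)) := by
    intro e he
    rw [Finset.mem_Icc] at he
    have he' : |(e : ℝ)| ≤ K := by
      rw [abs_le]
      constructor
      · have : ((-K : ℤ) : ℝ) ≤ e := by exact_mod_cast he.1
        push_cast at this
        exact this
      · exact_mod_cast he.2
    refine (shift_diff ha hb hc hm n hτ hG hη hL e).trans ?_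
    refine mul_le_mul_of_nonneg_left ?_ (by positivity)
    have g0 : (0 : ℝ) ≤ |(e : ℝ)| := abs_nonneg _
    have g1 : 2 * ((m : ℝ) * |(e : ℝ)| * Γ * n) ≤ 2 * ((m : ℝ) * K * Γ * n) := by
      gcongr
    have g2 : η * |(e : ℝ)| * (n : ℝ) ^ 2 ≤ η * K * (n : ℝ) ^ 2 := by
      gcongr
    have g3 : 0 ≤ (K : ℝ) * (m * (n : ℝ)) := by positivity
    have g4 : 0 ≤ 2 * (K : ℝ) * Γ * (η * (n : ℝ) ^ 2) := by positivity
    nlinarith
  refine (Finset.sum_le_sum h4).trans (le_of_eq ?_)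
  rw [Finset.sum_const, nsmul_eq_mul]
  ring

end

end Pool.Agent.R804.RbLim
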