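import Pool.Agent.R804.RbLim.Fourier
import Pool.Agent.R804.RbLim.Transfer2

/-!
# The blow-up lemma
-/

set_option autoImplicit false
set_option linter.unusedSectionVars false

open Finset Function

namespace Pool.Agent.R804.RbLim

/-- The weighted count of solutions for a colouring. -/
noncomputable def S (a b c : ℤ) (Φ : Fin 3 → Fin 3 → Fin 3 → ℝ) (n : ℕ) (f : ℤ → Fin 3) : ℝ :=
  ∑ y ∈ T a b c n 0, Φ (f (y 0)) (f (y 1)) (f (y 2))

theorem S_abs_le (a b c : ℤ) {Φ : Fin 3 → Fin 3 → Fin 3 → ℝ} (hΦ : ∀ i j k, |Φ i j k| ≤ 1)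
    (n : ℕ) (f : ℤ → Fin 3) : |S a b c Φ n f| ≤ (T a b c n 0).card := by
  unfold S
  refine (Finset.abs_sum_le_sum_abs _ _).trans ((Finset.sum_le_sum fun y _ => hΦ _ _ _).trans ?_)
  rw [Finset.sum_const, nsmul_eq_mul, mul_one]

theorem S_eq_Gf (a b c : ℤ) (Φ : Fin 3 → Fin 3 → Fin 3 → ℝ) (n : ℕ) (f : ℤ → Fin 3) :
    ∑ y ∈ T a b c n 0, Gf Φ (ind f) y = S a b c Φ n f :=
  Finset.sum_congr rfl fun y _ => Gf_ind Φ f y

theorem Gf_diff {Φ : Fin 3 → Fin 3 → Fin 3 → ℝ} (hΦ : ∀ i j k, |Φ i j k| ≤ 1)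
    {g : ℤ → Fin 3 → ℝ} (hg : Simplex g) (y y' : Fin 3 → ℤ) :
    |Gf Φ g y' - Gf Φ g y| ≤ ∑ k, ∑ i, |g (y' k) i - g (y k) i| := by
  have h0 : Gf Φ g y' - Gf Φ g y
      = ∑ i, ∑ j, ∑ k, Φ i j k * (g (y' 0) i - g (y 0) i) * g (y' 1) j * g (y' 2) k
      + ∑ i, ∑ j, ∑ k, Φ i j k * g (y 0) i * (g (y' 1) j - g (y 1) j) * g (y' 2) k
      + ∑ i, ∑ j, ∑ k, Φ i j k * g (y 0) i * g (y 1) j * (g (y' 2) k - g (y 2) k) := by
    unfold Gf
    simp only [← Finset.sum_add_distrib, ← Finset.sum_sub_distrib]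
    refine Finset.sum_congr rfl fun i _ => Finset.sum_congr rfl fun j _ =>
      Finset.sum_congr rfl fun k _ => ?_
    ring
  have h1 := trilinear_le hΦ (fun i => g (y' 0) i - g (y 0) i) (g (y' 1)) (g (y' 2))
  have h2 := trilinear_le hΦ (g (y 0)) (fun i => g (y' 1) i - g (y 1) i) (g (y' 2))
  have h3 := trilinear_le hΦ (g (y 0)) (g (y 1)) (fun i => g (y' 2) i - g (y 2) i)
  rw [hg.abs_sum, hg.abs_sum, mul_one, mul_one] at h1
  rw [hg.abs_sum, hg.abs_sum, one_mul, mul_one] at h2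
  rw [hg.abs_sum, hg.abs_sum, one_mul, one_mul] at h3
  have h4 := Fin.sum_univ_three (fun k => ∑ i, |g (y' k) i - g (y k) i|)
  rw [h0, h4]
  refine (abs_add_three _ _ _).trans ?_
  linarith

/-- The arithmetic of the final estimate. -/
theorem final_arith {δ ε₁ J M C η m n n1 N N1 Q SN X Sn p tn tn1 tN tN1 : ℝ}
    (hδ : 0 < δ) (hε₁ : ε₁ = δ / 1944) (hJ : 0 ≤ J) (hM : 0 ≤ M) (hC : 0 ≤ C)
    (hCη : C * η ≤ δ / 24) (hmM : m ≤ M) (hn : 1 ≤ n) (hn1 : 0 ≤ n1)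
    (hN : 0 ≤ N) (hQ : 0 ≤ Q) (hn1n : n1 ≤ n) (hnn1 : n - n1 ≤ m) (hn2 : n ≤ 2 * n1)
    (hN1 : N1 = n1 * Q) (hN1N : N1 ≤ N) (hNN1 : N - N1 ≤ n1)
    (hp : |p| ≤ 1) (hSn : Sn = p * tn)
    (h1 : Q ^ 2 * X - C * Q ^ 2 * (m * n1 + η * n1 ^ 2) - 3 * ((N - N1) * N) - 24 * N ≤ SN)
    (h2 : Sn - 81 * ((ε₁ * n + 2 * J * m) * n) - 3 * ((n - n1) * n) ≤ X)
    (h3 : |tN - tN1| ≤ 3 * ((N - N1) * N))
    (h4 : |tN1 - Q ^ 2 * tn1| ≤ C * Q ^ 2 * (m * n1))
    (h5 : |tn - tn1| ≤ 3 * ((n - n1) * n))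
    (hbig : 2 * C * M + 162 * J * M + 6 * M ≤ n * (δ / 12)) (hbig2 : 90 * n ≤ δ * N) :
    p * tN - δ * N ^ 2 ≤ SN := by
  have hn0 : 0 ≤ n := by linarith
  have hQ2 : 0 ≤ Q ^ 2 := sq_nonneg Q
  have hU : Q * n ≤ 2 * N := by
    have := mul_le_mul_of_nonneg_left hn2 hQ
    linarith
  have hU0 : 0 ≤ Q * n := mul_nonneg hQ hn0
  have hU2 : Q ^ 2 * n ^ 2 ≤ 4 * N ^ 2 := by
    have := pow_le_pow_left₀ hU0 hU 2
    linarith
  have hmn : m * n1 ≤ M * n := mul_le_mul hmM hn1n hn1 hM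
  have hn12 : n1 ^ 2 ≤ n ^ 2 := pow_le_pow_left₀ hn1 hn1n 2
  have hCQ : 0 ≤ C * Q ^ 2 := mul_nonneg hC hQ2
  have g1 : C * Q ^ 2 * (m * n1) ≤ C * Q ^ 2 * (M * n) := mul_le_mul_of_nonneg_left hmn hCQ
  have g2 : (C * η) * (Q ^ 2 * n1 ^ 2) ≤ (δ / 24) * (Q ^ 2 * n ^ 2) :=
    mul_le_mul hCη (mul_le_mul_of_nonneg_left hn12 hQ2) (mul_nonneg hQ2 (sq_nonneg _))
      (by linarith)
  have e2 : Q ^ 2 * (Sn - 81 * ((ε₁ * n + 2 * J * m) * n) - 3 * ((n - n1) * n)) ≤ Q ^ 2 * X :=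
    mul_le_mul_of_nonneg_left h2 hQ2
  have f1 : J * m * n ≤ J * M * n :=
    mul_le_mul_of_nonneg_right (mul_le_mul_of_nonneg_left hmM hJ) hn0
  have f2 : 81 * ((ε₁ * n + 2 * J * m) * n) ≤ n ^ 2 * (δ / 24) + 162 * J * M * n := by
    rw [hε₁]
    linarith
  have e3 := mul_le_mul_of_nonneg_left f2 hQ2
  have e4 : 3 * ((n - n1) * n) ≤ 3 * (M * n) := by
    have := mul_le_mul_of_nonneg_right (hnn1.trans hmM) hn0
    linarith
  have e4' := mul_le_mul_of_nonneg_left e4 hQ2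
  have e5 : 3 * ((N - N1) * N) ≤ 3 * (n * N) := by
    have := mul_le_mul_of_nonneg_right (hNN1.trans hn1n) hN
    linarith
  have e7 : |tN - Q ^ 2 * tn| ≤ 3 * (n * N) + C * Q ^ 2 * (M * n) + Q ^ 2 * (3 * (M * n)) := by
    have f1 : tN - Q ^ 2 * tn = (tN - tN1) + (tN1 - Q ^ 2 * tn1) + Q ^ 2 * (tn1 - tn) := by ring
    rw [f1]
    refine (abs_add_three _ _ _).trans ?_
    have f2 : |Q ^ 2 * (tn1 - tn)| ≤ Q ^ 2 * (3 * (M * n)) := by
      rw [abs_mul, abs_of_nonneg hQ2, abs_sub_comm]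
      exact mul_le_mul_of_nonneg_left (h5.trans e4) hQ2
    linarith
  have e8 : p * (tN - Q ^ 2 * tn) ≤ |tN - Q ^ 2 * tn| := by
    refine (le_abs_self _).trans ?_
    rw [abs_mul]
    calc |p| * |tN - Q ^ 2 * tn| ≤ 1 * |tN - Q ^ 2 * tn| :=
          mul_le_mul_of_nonneg_right hp (abs_nonneg _)
      _ = _ := one_mul _
  have f3 : 2 * C * M * n + 162 * J * M * n + 6 * M * n ≤ n ^ 2 * (δ / 12) := by
    have := mul_le_mul_of_nonneg_right hbig hn0
    linarith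
  have e9 := mul_le_mul_of_nonneg_left f3 hQ2
  have e10 : 30 * (n * N) ≤ δ / 3 * N ^ 2 := by
    have := mul_le_mul_of_nonneg_right hbig2 hN
    linarith
  have e11 : Q ^ 2 * n ^ 2 * (δ / 12) ≤ δ / 3 * N ^ 2 := by
    have := mul_le_mul_of_nonneg_right hU2 (by linarith : (0 : ℝ) ≤ δ / 12)
    linarith
  have e12 : 24 * N ≤ 24 * (n * N) := by
    have := mul_le_mul_of_nonneg_right hn hN
    linarith
  have e13 : Q ^ 2 * Sn = p * (Q ^ 2 * tn) := by rw [hSn]; ring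
  linarith

section

variable {a b c : ℤ} (ha : 0 < a) (hb : 0 < b) (hc : 0 < c)
include ha hb hc

theorem T_subset {n n' : ℕ} (h : n' ≤ n) : T a b c n' 0 ⊆ T a b c n 0 := by
  intro y hy
  rw [mem_T] at hy ⊢
  refine ⟨fun k => ⟨(hy.1 k).1, (hy.1 k).2.trans (by exact_mod_cast h)⟩, hy.2⟩

/-- Solutions with a coordinate in a given set. -/
theorem card_hit (n : ℕ) (A : Finset ℤ) :
    ((T a b c n 0).filter (fun y => ∃ k, y k ∈ A)).card ≤ 3 * (A.card * n) := by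
  have hsub : (T a b c n 0).filter (fun y => ∃ k, y k ∈ A)
      ⊆ Finset.univ.biUnion (fun k : Fin 3 => (T a b c n 0).filter (fun y => y k ∈ A)) := by
    intro y hy
    rw [Finset.mem_filter] at hy
    obtain ⟨hy1, k, hk⟩ := hy
    exact Finset.mem_biUnion.mpr ⟨k, Finset.mem_univ _, Finset.mem_filter.mpr ⟨hy1, hk⟩⟩
  refine (Finset.card_le_card hsub).trans (Finset.card_biUnion_le.trans ?_)
  have h1 : ∀ k : Fin 3, ((T a b c n 0).filter (fun y => y k ∈ A)).card ≤ A.card * n := by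
    intro k
    obtain ⟨j, hj⟩ := exists_other ha hb hc k
    have h := card_le_of_coord ha hb hc (w := 0)
      (S := (T a b c n 0).filter (fun y => y k ∈ A)) (A := A) (B := Icc (1 : ℤ) n) hj
      (fun y hy => (mem_T.mp (Finset.mem_filter.mp hy).1).2)
      (fun y hy => (Finset.mem_filter.mp hy).2)
      (fun y hy => Finset.mem_Icc.mpr ((mem_T.mp (Finset.mem_filter.mp hy).1).1 j))
    simpa using h
  refine (Finset.sum_le_sum fun k _ => h1 k).trans ?_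
  simp

theorem sum_T_diff {n n' : ℕ} (h : n' ≤ n) {G : (Fin 3 → ℤ) → ℝ} (hG : ∀ y, |G y| ≤ 1) :
    |∑ y ∈ T a b c n 0, G y - ∑ y ∈ T a b c n' 0, G y| ≤ 3 * (((n : ℝ) - n') * n) := by
  rw [← Finset.sum_sdiff (T_subset ha hb hc h), add_sub_cancel_right]
  refine (Finset.abs_sum_le_sum_abs _ _).trans ((Finset.sum_le_sum fun y _ => hG y).trans ?_)
  rw [Finset.sum_const, nsmul_eq_mul, mul_one]
  have h1 : T a b c n 0 \ T a b c n' 0
      ⊆ (T a b c n 0).filter (fun y => ∃ k, y k ∈ Ioc (n' : ℤ) n) := by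
    intro y hy
    rw [Finset.mem_sdiff] at hy
    refine Finset.mem_filter.mpr ⟨hy.1, ?_⟩
    by_contra hcon
    push Not at hcon
    apply hy.2
    rw [mem_T]
    refine ⟨fun k => ⟨((mem_T.mp hy.1).1 k).1, ?_⟩, (mem_T.mp hy.1).2⟩
    have h2 := hcon k
    have h3 := ((mem_T.mp hy.1).1 k).2
    rw [Finset.mem_Ioc] at h2
    by_contra h4
    exact h2 ⟨by omega, h3⟩
  have h2 := (Finset.card_le_card h1).trans (card_hit ha hb hc n (Ioc (n' : ℤ) n))
  have h3 : ((Ioc (n' : ℤ) n).card : ℝ) = (n : ℝ) - n' := by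
    rw [Int.card_Ioc]
    have h4 : ((n : ℤ) - n').toNat = n - n' := by omega
    rw [h4, Nat.cast_sub h]
  rw [← h3]
  exact_mod_cast h2

theorem fix_surj {Φ : Fin 3 → Fin 3 → Fin 3 → ℝ} (hΦ : ∀ i j k, |Φ i j k| ≤ 1)
    (f : ℤ → Fin 3) {N : ℕ} (hN : 3 ≤ N) :
    ∃ f' : ℤ → Fin 3, (∀ i, ∃ x : ℤ, 1 ≤ x ∧ x ≤ N ∧ f' x = i) ∧
      S a b c Φ N f - 18 * N ≤ S a b c Φ N f' := by
  classical
  have hN' : (3 : ℤ) ≤ N := by exact_mod_cast hN
  set f' : ℤ → Fin 3 := fun x => if x = 1 then 0 else if x = 2 then 1 else if x = 3 then 2 else f x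
    with hf'
  refine ⟨f', ?_, ?_⟩
  · intro i
    fin_cases i
    · exact ⟨1, le_rfl, by linarith, by simp [hf']⟩
    · exact ⟨2, by norm_num, by linarith, by simp [hf']⟩
    · exact ⟨3, by norm_num, by linarith, by simp [hf']⟩
  · set A : Finset ℤ := Icc 1 3 with hA
    have h1 : S a b c Φ N f' - S a b c Φ N f
        = ∑ y ∈ (T a b c N 0).filter (fun y => ∃ k, y k ∈ A),
          (Φ (f' (y 0)) (f' (y 1)) (f' (y 2)) - Φ (f (y 0)) (f (y 1)) (f (y 2))) := by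
      unfold S
      rw [← Finset.sum_sub_distrib, Finset.sum_filter]
      refine Finset.sum_congr rfl fun y _ => ?_
      by_cases h : ∃ k, y k ∈ A
      · rw [if_pos h]
      · rw [if_neg h]
        push Not at h
        have h2 : ∀ k, f' (y k) = f (y k) := by
          intro k
          have h3 := h k
          rw [hA, Finset.mem_Icc] at h3
          simp only [hf']
          rw [if_neg (by omega), if_neg (by omega), if_neg (by omega)]
        rw [h2, h2, h2, sub_self]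
    have h2 : |S a b c Φ N f' - S a b c Φ N f| ≤ 18 * N := by
      rw [h1]
      refine (Finset.abs_sum_le_sum_abs _ _).trans ?_
      have h3 : ∀ y ∈ (T a b c N 0).filter (fun y => ∃ k, y k ∈ A),
          |Φ (f' (y 0)) (f' (y 1)) (f' (y 2)) - Φ (f (y 0)) (f (y 1)) (f (y 2))| ≤ 2 := by
        intro y _
        refine (abs_sub _ _).trans ?_
        linarith [hΦ (f' (y 0)) (f' (y 1)) (f' (y 2)), hΦ (f (y 0)) (f (y 1)) (f (y 2))]
      refine (Finset.sum_le_sum h3).trans ?_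
      rw [Finset.sum_const, nsmul_eq_mul]
      have h4 := card_hit ha hb hc N A
      have h5 : A.card = 3 := by rw [hA]; simp
      rw [h5] at h4
      have h6 : (((T a b c N 0).filter (fun y => ∃ k, y k ∈ A)).card : ℝ) ≤ 3 * (3 * N) := by
        exact_mod_cast h4
      linarith
    rw [abs_le] at h2
    linarith [h2.1]

theorem card_T_sq : ∃ κ : ℝ, 0 < κ ∧ ∀ n : ℕ, 2 * (a + b + c) ≤ n →
    κ * (n : ℝ) ^ 2 ≤ (T a b c n 0).card := by
  set s : ℕ := (a + b + c).toNat with hs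
  have hsz : (s : ℤ) = a + b + c := Int.toNat_of_nonneg (by linarith)
  have hs0 : 0 < s := by omega
  have hsr : (0 : ℝ) < s := by exact_mod_cast hs0
  refine ⟨1 / (4 * (s : ℝ) ^ 2), by positivity, fun n hn => ?_⟩
  have hn2 : 2 * s ≤ n := by omega
  have h1 : (a + b + c) * ((n / s : ℕ) : ℤ) ≤ n := by
    rw [← hsz]
    exact_mod_cast Nat.mul_div_le n s
  have h2 := card_T_ge ha hb hc n (n / s) h1
  have h3 : (n : ℝ) / (2 * s) ≤ ((n / s : ℕ) : ℝ) := by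
    rw [div_le_iff₀ (by positivity)]
    have h4 : n < s * (n / s) + s := by
      have := Nat.lt_div_mul_add hs0 (a := n)
      rw [mul_comm] at this
      exact this
    have h5 : n ≤ (n / s) * (2 * s) := by nlinarith
    exact_mod_cast h5
  have h6 : ((n / s : ℕ) : ℝ) * ((n / s : ℕ) : ℝ) ≤ (T a b c n 0).card := by exact_mod_cast h2
  have h7 : (0 : ℝ) ≤ (n : ℝ) / (2 * s) := by positivity
  calc 1 / (4 * (s : ℝ) ^ 2) * (n : ℝ) ^ 2 = ((n : ℝ) / (2 * s)) * ((n : ℝ) / (2 * s)) := by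
        field_simp
        ring
    _ ≤ ((n / s : ℕ) : ℝ) * ((n / s : ℕ) : ℝ) := mul_le_mul h3 h3 h7 (h7.trans h3)
    _ ≤ _ := h6

/-- The blow-up lemma: a colouring of a large interval can be imitated, with an arbitrarily
small loss, on all much larger intervals. -/
theorem blowup {τ : Fin 3 → ℤ} (hτ : E a b c τ = 1) {ε : ℝ} (hε : 0 < ε) :
    ∃ n0 : ℕ, ∀ n : ℕ, n0 ≤ n → ∃ N0 : ℕ, ∀ N : ℕ, N0 ≤ N →
      ∀ (Φ : Fin 3 → Fin 3 → Fin 3 → ℝ), (∀ i j k, |Φ i j k| ≤ 1) → ∀ f : ℤ → Fin 3,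
      ∃ f' : ℤ → Fin 3, (∀ i, ∃ x : ℤ, 1 ≤ x ∧ x ≤ N ∧ f' x = i) ∧
        S a b c Φ n f / (T a b c n 0).card - ε ≤ S a b c Φ N f' / (T a b c N 0).card := by
  obtain ⟨C, hC, htr⟩ := transfer ha hb hc hτ
  obtain ⟨κ, hκ, hκT⟩ := card_T_sq ha hb hc
  set δ : ℝ := ε * κ with hδ
  have hδ0 : 0 < δ := mul_pos hε hκ
  set Γ : ℝ := ∑ k, |(τ k : ℝ)| with hΓ
  have hΓ0 : 0 ≤ Γ := Finset.sum_nonneg fun _ _ => abs_nonneg _
  set J : ℕ := ⌈72 * C * Γ / δ⌉₊ + 1 with hJ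
  have hJ0 : 0 < J := Nat.succ_pos _
  have hJr : (0 : ℝ) < J := by exact_mod_cast hJ0
  set η : ℝ := 3 * Γ / J with hη
  have hη0 : 0 ≤ η := by positivity
  have hCη : C * η ≤ δ / 24 := by
    have h1 : 72 * C * Γ / δ ≤ J := by
      refine (Nat.le_ceil _).trans ?_
      rw [hJ]
      push_cast
      linarith
    rw [div_le_iff₀ hδ0] at h1
    rw [hη, mul_div_assoc', div_le_iff₀ hJr]
    linarith
  obtain ⟨M, hM⟩ := smoothing ha hb hc (ε := δ / 1944) (by positivity) hJ0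
  obtain ⟨n0, hn0⟩ := exists_nat_ge ((2 * C * M + 162 * J * M + 6 * M) / (δ / 12))
  refine ⟨max (max n0 (2 * M)) (max 1 (2 * (a + b + c).toNat)), fun n hn => ?_⟩
  obtain ⟨N0, hN0⟩ := exists_nat_ge (90 * n / δ)
  refine ⟨max (max N0 3) (max n (2 * (a + b + c).toNat)), fun N hN Φ hΦ f => ?_⟩
  rw [max_le_iff, max_le_iff, max_le_iff] at hn hN
  obtain ⟨⟨hn1, hn2⟩, hn3, hn4⟩ := hn
  obtain ⟨⟨hN1, hN2⟩, hN3, hN4⟩ := hN
  obtain ⟨m, hm1, hmM, hsm⟩ := hM n hn3 f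
  have hsm := hsm Φ hΦ
  set l : ℕ := n / m with hl
  set n1 : ℕ := m * l with hn1'
  have hmod : m * l + n % m = n := Nat.div_add_mod n m
  have hmlt : n % m < m := Nat.mod_lt _ hm1
  have hn1n : n1 ≤ n := by omega
  have hn1big : n ≤ 2 * n1 := by omega
  have hn1pos : 0 < n1 := by omega
  set Q : ℕ := N / n1 with hQ
  have hQmod : n1 * Q + N % n1 = N := Nat.div_add_mod N n1
  have hQlt : N % n1 < n1 := Nat.mod_lt _ hn1pos
  have hQ0 : 0 < Q := Nat.div_pos (hn1n.trans hN3) hn1pos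
  set g := smooth f J m with hg
  have hgS : Simplex g := smooth_simplex f hJ0 m
  set h : ℤ → Fin 3 → ℝ := fun x => g (psi1 m Q x) with hh
  have hhS : Simplex h := fun x => hgS (psi1 m Q x)
  -- the transfer for the weights
  have hLip : ∀ (y : Fin 3 → ℤ) (t : ℤ),
      |Gf Φ g (y + ((m : ℤ) * t) • τ) - Gf Φ g y| ≤ η * |(t : ℝ)| := by
    intro y t
    refine (Gf_diff hΦ hgS y _).trans ?_
    have h1 : ∀ k i : Fin 3, |g ((y + ((m : ℤ) * t) • τ) k) i - g (y k) i|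
        ≤ |(t : ℝ)| * |(τ k : ℝ)| * (1 / J) := by
      intro k i
      have h2 : (y + ((m : ℤ) * t) • τ) k = y k + m * (t * τ k) := by
        simp; ring
      rw [h2]
      have h3 := smooth_int f hJ0 m (y k) i (t * τ k)
      push_cast at h3
      rw [abs_mul] at h3
      exact h3
    refine (Finset.sum_le_sum fun k _ => Finset.sum_le_sum fun i _ => h1 k i).trans ?_
    simp only [Finset.sum_const, Finset.card_univ, Fintype.card_fin, nsmul_eq_mul]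
    rw [← Finset.mul_sum, ← Finset.sum_mul, ← Finset.mul_sum, ← hΓ, hη]
    apply le_of_eq
    push_cast
    ring
  have ht1 := htr m l Q hm1 hQ0 (fun y => Gf Φ g y) η hη0 (fun y => Gf_abs_le hΦ hgS y) hLip
  have ht2 := htr m l Q hm1 hQ0 (fun _ => 1) 0 le_rfl (by simp) (by simp)
  obtain ⟨f', hf'⟩ := rounding ha hb hc hΦ hhS N
  obtain ⟨f'', hf''1, hf''2⟩ := fix_surj ha hb hc hΦ f' hN2
  refine ⟨f'', hf''1, ?_⟩
  have hN1N : n1 * Q ≤ N := by omega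
  have hd1 := sum_T_diff ha hb hc hN1N (G := fun y => Gf Φ h y) (fun y => Gf_abs_le hΦ hhS y)
  have hd2 := sum_T_diff ha hb hc hn1n (G := fun y => Gf Φ g y) (fun y => Gf_abs_le hΦ hgS y)
  have hd3 := sum_T_diff ha hb hc hN1N (G := fun _ => 1) (by simp)
  have hd4 := sum_T_diff ha hb hc hn1n (G := fun _ => 1) (by simp)
  have hcomp : ∀ x : Fin 3 → ℤ, Gf Φ g (psi m Q x) = Gf Φ h x := fun x => rfl
  simp only [hcomp] at ht1
  simp only [Finset.sum_const, nsmul_eq_mul, mul_one] at ht2 hd3 hd4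
  have hsz : (((a + b + c).toNat : ℕ) : ℤ) = a + b + c := Int.toNat_of_nonneg (by linarith)
  have htn : 0 < ((T a b c n 0).card : ℝ) := by
    have h1 := hκT n (by omega)
    have h2 : (0 : ℝ) < n := by exact_mod_cast hn3
    exact lt_of_lt_of_le (by positivity) h1
  have htN1 := hκT N (by omega)
  have htN : 0 < ((T a b c N 0).card : ℝ) := by
    have h2 : (0 : ℝ) < N := by exact_mod_cast (lt_of_lt_of_le (by norm_num) hN2)
    exact lt_of_lt_of_le (by positivity) htN1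
  set p : ℝ := S a b c Φ n f / (T a b c n 0).card with hp
  have hp1 : |p| ≤ 1 := by
    rw [hp, abs_div, abs_of_pos htn, div_le_one htn]
    exact S_abs_le a b c hΦ n f
  have hSn : S a b c Φ n f = p * (T a b c n 0).card := by
    rw [hp]; field_simp
  rw [S_eq_Gf] at hsm
  have key := final_arith (δ := δ) (ε₁ := δ / 1944) (J := J) (M := M) (C := C) (η := η) (m := m)
    (n := n) (n1 := n1) (N := N) (N1 := (n1 * Q : ℕ)) (Q := Q) (SN := S a b c Φ N f'')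
    (X := ∑ y ∈ T a b c n1 0, Gf Φ g y) (Sn := S a b c Φ n f) (p := p)
    (tn := (T a b c n 0).card) (tn1 := (T a b c n1 0).card) (tN := (T a b c N 0).card)
    (tN1 := (T a b c (n1 * Q) 0).card) hδ0 rfl hJr.le (Nat.cast_nonneg _) hC hCη
    (by exact_mod_cast hmM) (by exact_mod_cast hn3) (Nat.cast_nonneg _) (Nat.cast_nonneg _)
    (Nat.cast_nonneg _) (by exact_mod_cast hn1n)
    (by
      have h1 : n ≤ m + n1 := by omega
      have h2 : (n : ℝ) ≤ m + n1 := by exact_mod_cast h1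
      linarith)
    (by exact_mod_cast hn1big) (by push_cast; ring) (by exact_mod_cast hN1N)
    (by
      have h1 : N ≤ n1 + n1 * Q := by omega
      have h2 : (N : ℝ) ≤ n1 + ((n1 * Q : ℕ) : ℝ) := by exact_mod_cast h1
      linarith)
    hp1 hSn ?_ ?_ hd3 ?_ hd4 ?_ ?_
  · have h1 : δ * (N : ℝ) ^ 2 ≤ ε * (T a b c N 0).card := by
      rw [hδ, mul_assoc]
      exact mul_le_mul_of_nonneg_left htN1 hε.le
    rw [le_div_iff₀ htN]
    linarith
  · rw [abs_le] at ht1 hd1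
    have h1 : S a b c Φ N f' = ∑ y ∈ T a b c N 0, Φ (f' (y 0)) (f' (y 1)) (f' (y 2)) := rfl
    rw [← h1] at hf'
    have h2 := ht1.1
    have h3 := hd1.1
    linarith
  · rw [abs_le] at hsm hd2
    have h1 := hsm.2
    have h2 := hd2.2
    linarith
  · rw [zero_mul, add_zero] at ht2
    exact ht2
  · have h1 : (n0 : ℝ) ≤ n := by exact_mod_cast hn1
    have h2 := hn0.trans h1
    rwa [div_le_iff₀ (by positivity)] at h2
  · have h1 : (N0 : ℝ) ≤ N := by exact_mod_cast hN1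
    have h2 := hN0.trans h1
    rw [div_le_iff₀ hδ0] at h2
    linarith

end

end Pool.Agent.R804.RbLim
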