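import Pool.Agent.R804.RbLim.Count

/-!
# Fractional colourings and rounding
-/

set_option autoImplicit false
set_option linter.unusedSectionVars false

open Finset Function

namespace Pool.Agent.R804.RbLim

/-- The weight of a triple for a fractional colouring. -/
noncomputable def Gf (Φ : Fin 3 → Fin 3 → Fin 3 → ℝ) (g : ℤ → Fin 3 → ℝ) (y : Fin 3 → ℤ) : ℝ :=
  ∑ i, ∑ j, ∑ k, Φ i j k * g (y 0) i * g (y 1) j * g (y 2) k

/-- Fractional colourings. -/
def Simplex (g : ℤ → Fin 3 → ℝ) : Prop := ∀ x, (∀ i, 0 ≤ g x i) ∧ ∑ i, g x i = 1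

theorem trilinear_le {Φ : Fin 3 → Fin 3 → Fin 3 → ℝ} (hΦ : ∀ i j k, |Φ i j k| ≤ 1)
    (u v w : Fin 3 → ℝ) :
    |∑ i, ∑ j, ∑ k, Φ i j k * u i * v j * w k| ≤ (∑ i, |u i|) * (∑ j, |v j|) * (∑ k, |w k|) := by
  have h1 : (∑ i, |u i|) * (∑ j, |v j|) * (∑ k, |w k|)
      = ∑ i, ∑ j, ∑ k, |u i| * |v j| * |w k| := by
    rw [Finset.sum_mul_sum, Finset.sum_mul]
    refine Finset.sum_congr rfl fun i _ => ?_
    rw [Finset.sum_mul]
    refine Finset.sum_congr rfl fun j _ => ?_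
    rw [Finset.mul_sum]
  rw [h1]
  refine (Finset.abs_sum_le_sum_abs _ _).trans (Finset.sum_le_sum fun i _ => ?_)
  refine (Finset.abs_sum_le_sum_abs _ _).trans (Finset.sum_le_sum fun j _ => ?_)
  refine (Finset.abs_sum_le_sum_abs _ _).trans (Finset.sum_le_sum fun k _ => ?_)
  rw [abs_mul, abs_mul, abs_mul]
  have h2 : |Φ i j k| * (|u i| * |v j| * |w k|) ≤ 1 * (|u i| * |v j| * |w k|) :=
    mul_le_mul_of_nonneg_right (hΦ i j k) (by positivity)
  calc |Φ i j k| * |u i| * |v j| * |w k| = |Φ i j k| * (|u i| * |v j| * |w k|) := by ring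
    _ ≤ 1 * (|u i| * |v j| * |w k|) := h2
    _ = _ := one_mul _

theorem Simplex.abs_sum {g : ℤ → Fin 3 → ℝ} (hg : Simplex g) (x : ℤ) : ∑ i, |g x i| = 1 := by
  rw [← (hg x).2]
  exact Finset.sum_congr rfl fun i _ => abs_of_nonneg ((hg x).1 i)

theorem Gf_abs_le {Φ : Fin 3 → Fin 3 → Fin 3 → ℝ} (hΦ : ∀ i j k, |Φ i j k| ≤ 1)
    {g : ℤ → Fin 3 → ℝ} (hg : Simplex g) (y : Fin 3 → ℤ) : |Gf Φ g y| ≤ 1 := by
  have h := trilinear_le hΦ (g (y 0)) (g (y 1)) (g (y 2))
  rw [hg.abs_sum, hg.abs_sum, hg.abs_sum] at h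
  simpa [Gf] using h

/-- The fractional colouring of a colouring. -/
noncomputable def ind (f : ℤ → Fin 3) : ℤ → Fin 3 → ℝ := fun x => Pi.single (f x) 1

theorem single_simplex (i : Fin 3) :
    (∀ j, 0 ≤ (Pi.single i 1 : Fin 3 → ℝ) j) ∧ ∑ j, (Pi.single i 1 : Fin 3 → ℝ) j = 1 := by
  constructor
  · intro j
    by_cases h : j = i
    · subst h; simp
    · simp [Pi.single_apply, h]
  · simp

theorem ind_simplex (f : ℤ → Fin 3) : Simplex (ind f) := fun x => single_simplex (f x)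

theorem Gf_of_single {Φ : Fin 3 → Fin 3 → Fin 3 → ℝ} {g : ℤ → Fin 3 → ℝ} {y : Fin 3 → ℤ}
    {i j k : Fin 3} (h0 : g (y 0) = Pi.single i 1) (h1 : g (y 1) = Pi.single j 1)
    (h2 : g (y 2) = Pi.single k 1) : Gf Φ g y = Φ i j k := by
  unfold Gf
  rw [h0, h1, h2]
  simp [Pi.single_apply]

theorem Gf_ind (Φ : Fin 3 → Fin 3 → Fin 3 → ℝ) (f : ℤ → Fin 3) (y : Fin 3 → ℤ) :
    Gf Φ (ind f) y = Φ (f (y 0)) (f (y 1)) (f (y 2)) := Gf_of_single rfl rfl rfl

theorem Gf_update (Φ : Fin 3 → Fin 3 → Fin 3 → ℝ) (g : ℤ → Fin 3 → ℝ) {y : Fin 3 → ℤ}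
    (h01 : y 0 ≠ y 1) (h02 : y 0 ≠ y 2) (h12 : y 1 ≠ y 2) (x : ℤ) {v : Fin 3 → ℝ}
    (hv : ∑ i, v i = 1) :
    Gf Φ (update g x v) y = ∑ i, v i * Gf Φ (update g x (Pi.single i 1)) y := by
  by_cases h0 : y 0 = x
  · subst h0
    simp only [Gf, update_self, update_of_ne h01.symm, update_of_ne h02.symm,
      Fin.sum_univ_three, Pi.single_apply]
    simp
    ring
  by_cases h1 : y 1 = x
  · subst h1
    simp only [Gf, update_self, update_of_ne h01, update_of_ne h12.symm,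
      Fin.sum_univ_three, Pi.single_apply]
    simp
    ring
  by_cases h2 : y 2 = x
  · subst h2
    simp only [Gf, update_self, update_of_ne h02, update_of_ne h12,
      Fin.sum_univ_three, Pi.single_apply]
    simp
    ring
  · have h3 : ∀ u : Fin 3 → ℝ, Gf Φ (update g x u) y = Gf Φ g y := by
      intro u
      simp only [Gf, update_of_ne h0, update_of_ne h1, update_of_ne h2]
    rw [h3, Finset.sum_congr rfl fun i _ => by rw [h3], ← Finset.sum_mul, hv, one_mul]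

theorem Simplex.update {g : ℤ → Fin 3 → ℝ} (hg : Simplex g) (x : ℤ) (i : Fin 3) :
    Simplex (update g x (Pi.single i 1)) := by
  intro z
  by_cases h : z = x
  · subst h
    rw [update_self]
    exact single_simplex i
  · rw [update_of_ne h]
    exact hg z

theorem round_set {Φ : Fin 3 → Fin 3 → Fin 3 → ℝ} {S : Finset (Fin 3 → ℤ)}
    (hS : ∀ y ∈ S, y 0 ≠ y 1 ∧ y 0 ≠ y 2 ∧ y 1 ≠ y 2) {g : ℤ → Fin 3 → ℝ} (hg : Simplex g)
    (A : Finset ℤ) :
    ∃ g' : ℤ → Fin 3 → ℝ, Simplex g' ∧ (∀ x ∈ A, ∃ i, g' x = Pi.single i 1) ∧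
      ∑ y ∈ S, Gf Φ g y ≤ ∑ y ∈ S, Gf Φ g' y := by
  induction A using Finset.induction_on with
  | empty => exact ⟨g, hg, by simp, le_rfl⟩
  | insert x A hx ih =>
    obtain ⟨g', hg', hA, hle⟩ := ih
    have h1 : ∑ y ∈ S, Gf Φ g' y
        = ∑ i, g' x i * ∑ y ∈ S, Gf Φ (Function.update g' x (Pi.single i 1)) y := by
      have h2 : ∀ y ∈ S, Gf Φ g' y
          = ∑ i, g' x i * Gf Φ (Function.update g' x (Pi.single i 1)) y := by
        intro y hy
        obtain ⟨h01, h02, h12⟩ := hS y hy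
        have h3 := Gf_update Φ g' h01 h02 h12 x (hg' x).2
        rwa [Function.update_eq_self] at h3
      rw [Finset.sum_congr rfl h2, Finset.sum_comm]
      refine Finset.sum_congr rfl fun i _ => ?_
      rw [Finset.mul_sum]
    have h4 : ∃ i, ∑ y ∈ S, Gf Φ g' y
        ≤ ∑ y ∈ S, Gf Φ (Function.update g' x (Pi.single i 1)) y := by
      by_contra hcon
      push Not at hcon
      have h5 : ∑ i, g' x i * ∑ y ∈ S, Gf Φ (Function.update g' x (Pi.single i 1)) y
          < ∑ i, g' x i * ∑ y ∈ S, Gf Φ g' y := by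
        obtain ⟨i₀, hi₀⟩ : ∃ i, 0 < g' x i := by
          by_contra h6
          push Not at h6
          have h7 : ∑ i, g' x i ≤ 0 := Finset.sum_nonpos fun i _ => h6 i
          rw [(hg' x).2] at h7
          linarith
        refine Finset.sum_lt_sum (fun i _ => ?_) ⟨i₀, Finset.mem_univ _, ?_⟩
        · exact mul_le_mul_of_nonneg_left (hcon i).le ((hg' x).1 i)
        · exact mul_lt_mul_of_pos_left (hcon i₀) hi₀
      rw [← h1, ← Finset.sum_mul, (hg' x).2, one_mul] at h5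
      exact lt_irrefl _ h5
    obtain ⟨i, hi⟩ := h4
    refine ⟨Function.update g' x (Pi.single i 1), hg'.update x i, ?_, hle.trans hi⟩
    intro z hz
    by_cases hzx : z = x
    · subst hzx
      exact ⟨i, Function.update_self _ _ _⟩
    · rw [Function.update_of_ne hzx]
      exact hA z (Finset.mem_of_mem_insert_of_ne hz hzx)

section

variable {a b c : ℤ} (ha : 0 < a) (hb : 0 < b) (hc : 0 < c)
include ha hb hc

theorem card_eq_coord (N : ℕ) {i j : Fin 3} (hij : i ≠ j) :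
    ((T a b c N 0).filter (fun y => y i = y j)).card ≤ N := by
  have h : ((T a b c N 0).filter (fun y => y i = y j)).card ≤ (Icc (1 : ℤ) N).card := by
    refine Finset.card_le_card_of_injOn (fun y => y i) ?_ ?_
    · intro y hy
      rw [Finset.mem_coe, Finset.mem_filter] at hy
      exact Finset.mem_coe.mpr (Finset.mem_Icc.mpr ((mem_T.mp hy.1).1 i))
    · intro y hy z hz h
      rw [Finset.mem_coe, Finset.mem_filter] at hy hz
      exact eq_of_two ha hb hc ((mem_T.mp hy.1).2.trans (mem_T.mp hz.1).2.symm) hij h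
        (by rw [← hy.2, ← hz.2]; exact h)
  simpa using h

/-- Rounding a fractional colouring. -/
theorem rounding {Φ : Fin 3 → Fin 3 → Fin 3 → ℝ} (hΦ : ∀ i j k, |Φ i j k| ≤ 1)
    {g : ℤ → Fin 3 → ℝ} (hg : Simplex g) (N : ℕ) :
    ∃ f : ℤ → Fin 3, ∑ y ∈ T a b c N 0, Gf Φ g y - 6 * N
      ≤ ∑ y ∈ T a b c N 0, Φ (f (y 0)) (f (y 1)) (f (y 2)) := by
  classical
  set D : (Fin 3 → ℤ) → Prop := fun y => y 0 ≠ y 1 ∧ y 0 ≠ y 2 ∧ y 1 ≠ y 2 with hD
  set S := (T a b c N 0).filter D with hS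
  obtain ⟨g', hg', hA, hle⟩ := round_set (Φ := Φ) (S := S)
    (fun y hy => (Finset.mem_filter.mp hy).2) hg (Icc (1 : ℤ) N)
  choose! f hf using hA
  refine ⟨f, ?_⟩
  have h1 : ∀ y ∈ T a b c N 0, Gf Φ g' y = Φ (f (y 0)) (f (y 1)) (f (y 2)) := by
    intro y hy
    have h := (mem_T.mp hy).1
    exact Gf_of_single (hf _ (Finset.mem_Icc.mpr (h 0))) (hf _ (Finset.mem_Icc.mpr (h 1)))
      (hf _ (Finset.mem_Icc.mpr (h 2)))
  have hsplit : ∀ F : (Fin 3 → ℤ) → ℝ, ∑ y ∈ T a b c N 0, F y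
      = ∑ y ∈ S, F y + ∑ y ∈ (T a b c N 0).filter (fun y => ¬ D y), F y := fun F =>
    (Finset.sum_filter_add_sum_filter_not _ D F).symm
  have hcard : ((T a b c N 0).filter (fun y => ¬ D y)).card ≤ 3 * N := by
    have hsub : (T a b c N 0).filter (fun y => ¬ D y)
        ⊆ (T a b c N 0).filter (fun y => y 0 = y 1) ∪ (T a b c N 0).filter (fun y => y 0 = y 2)
          ∪ (T a b c N 0).filter (fun y => y 1 = y 2) := by
      intro y hy
      rw [Finset.mem_filter] at hy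
      simp only [hD, not_and_or, not_not, ne_eq] at hy
      simp only [Finset.mem_union, Finset.mem_filter]
      tauto
    refine (Finset.card_le_card hsub).trans ?_
    refine (Finset.card_union_le _ _).trans ?_
    have := Finset.card_union_le ((T a b c N 0).filter (fun y => y 0 = y 1))
      ((T a b c N 0).filter (fun y => y 0 = y 2))
    have c1 := card_eq_coord ha hb hc N (i := 0) (j := 1) (by decide)
    have c2 := card_eq_coord ha hb hc N (i := 0) (j := 2) (by decide)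
    have c3 := card_eq_coord ha hb hc N (i := 1) (j := 2) (by decide)
    omega
  have hbd : ∀ F : (Fin 3 → ℤ) → ℝ, (∀ y ∈ T a b c N 0, |F y| ≤ 1) →
      |∑ y ∈ (T a b c N 0).filter (fun y => ¬ D y), F y| ≤ 3 * N := by
    intro F hF
    refine (Finset.abs_sum_le_sum_abs _ _).trans ?_
    refine (Finset.sum_le_sum fun y hy => hF y (Finset.mem_filter.mp hy).1).trans ?_
    rw [Finset.sum_const, nsmul_eq_mul, mul_one]
    exact_mod_cast hcard
  have b1 := hbd (fun y => Gf Φ g y) (fun y _ => Gf_abs_le hΦ hg y)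
  have b2 := hbd (fun y => Φ (f (y 0)) (f (y 1)) (f (y 2))) (fun y _ => hΦ _ _ _)
  rw [hsplit (fun y => Gf Φ g y), hsplit (fun y => Φ (f (y 0)) (f (y 1)) (f (y 2)))]
  have h2 : ∑ y ∈ S, Gf Φ g' y = ∑ y ∈ S, Φ (f (y 0)) (f (y 1)) (f (y 2)) :=
    Finset.sum_congr rfl fun y hy => h1 y (Finset.mem_filter.mp hy).1
  rw [h2] at hle
  rw [abs_le] at b1 b2
  linarith [b1.1, b1.2, b2.1, b2.2]

end

end Pool.Agent.R804.RbLim
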