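import Pool.Agent.R804.RbLim.Count

/-!
# The exact blow-up identity and the transfer lemma
-/

set_option autoImplicit false
set_option linter.unusedSectionVars false

open Finset

namespace Pool.Agent.R804.RbLim

/-- The cube of the lower digits. -/
noncomputable def sbox (Q : ℕ) : Finset (Fin 3 → ℤ) :=
  Fintype.piFinset (fun _ => Ico (0 : ℤ) Q)

theorem mem_sbox {Q : ℕ} {s : Fin 3 → ℤ} : s ∈ sbox Q ↔ ∀ k, 0 ≤ s k ∧ s k < Q := by
  simp [sbox, Fintype.mem_piFinset, Finset.mem_Ico]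

/-- The point with base `y` and digit `s`. -/
def lift1 (m Q : ℤ) (y s : ℤ) : ℤ := y + m * ((Q - 1) * ((y - 1) / m) + s)

/-- The base of a point. -/
def psi1 (m Q : ℤ) (x : ℤ) : ℤ := m * ((x - 1) / (m * Q)) + (x - 1) % m + 1

/-- The digit of a point. -/
def dig1 (m Q : ℤ) (x : ℤ) : ℤ := ((x - 1) / m) % Q

/-- The lift in dimension three. -/
def lift (m Q : ℤ) (y s : Fin 3 → ℤ) : Fin 3 → ℤ := fun k => lift1 m Q (y k) (s k)

/-- The base in dimension three. -/
def psi (m Q : ℤ) (x : Fin 3 → ℤ) : Fin 3 → ℤ := fun k => psi1 m Q (x k)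

/-- The digits in dimension three. -/
def dig (m Q : ℤ) (x : Fin 3 → ℤ) : Fin 3 → ℤ := fun k => dig1 m Q (x k)

theorem lift1_facts {m Q : ℤ} (hm : 0 < m) (hQ : 0 < Q) {y s : ℤ}
    (hs0 : 0 ≤ s) (hs : s < Q) :
    psi1 m Q (lift1 m Q y s) = y ∧ dig1 m Q (lift1 m Q y s) = s := by
  have e0 : lift1 m Q y s - 1 = (y - 1) % m + m * (Q * ((y - 1) / m) + s) := by
    have := Int.emod_add_mul_ediv (y - 1) m
    unfold lift1
    linarith [this]
  have hr0 := Int.emod_nonneg (y - 1) hm.ne'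
  have hr1 := Int.emod_lt_of_pos (y - 1) hm
  have e1 : (lift1 m Q y s - 1) / m = Q * ((y - 1) / m) + s := by
    rw [e0, Int.add_mul_ediv_left _ _ hm.ne', Int.ediv_eq_zero_of_lt hr0 hr1, zero_add]
  have e2 : (lift1 m Q y s - 1) % m = (y - 1) % m := by
    rw [e0, Int.add_mul_emod_self_left, Int.emod_emod_of_dvd _ dvd_rfl]
  have e3 : (lift1 m Q y s - 1) / (m * Q) = (y - 1) / m := by
    rw [← Int.ediv_ediv_of_nonneg hm.le, e1, add_comm, Int.add_mul_ediv_left _ _ hQ.ne',
      Int.ediv_eq_zero_of_lt hs0 hs, zero_add]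
  constructor
  · unfold psi1
    rw [e3, e2]
    have := Int.emod_add_mul_ediv (y - 1) m
    linarith
  · unfold dig1
    rw [e1, add_comm, Int.add_mul_emod_self_left, Int.emod_eq_of_lt hs0 hs]

theorem psi1_facts {m Q : ℤ} (hm : 0 < m) (hQ : 0 < Q) (x : ℤ) :
    lift1 m Q (psi1 m Q x) (dig1 m Q x) = x := by
  have hr0 := Int.emod_nonneg (x - 1) hm.ne'
  have hr1 := Int.emod_lt_of_pos (x - 1) hm
  have e1 : (psi1 m Q x - 1) / m = (x - 1) / (m * Q) := by
    have : psi1 m Q x - 1 = (x - 1) % m + m * ((x - 1) / (m * Q)) := by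
      unfold psi1; ring
    rw [this, Int.add_mul_ediv_left _ _ hm.ne', Int.ediv_eq_zero_of_lt hr0 hr1, zero_add]
  unfold lift1
  rw [e1]
  unfold dig1 psi1
  have h1 := Int.emod_add_mul_ediv (x - 1) m
  have h2 := Int.emod_add_mul_ediv ((x - 1) / m) Q
  rw [Int.ediv_ediv_of_nonneg hm.le] at h2
  have h3 : m * ((x - 1) / m) = m * (((x - 1) / m) % Q + Q * ((x - 1) / (m * Q))) := by rw [h2]
  linarith

theorem psi1_mem {m Q l : ℤ} (hm : 0 < m) (hQ : 0 < Q) {x : ℤ} (h1 : 1 ≤ x)
    (h2 : x ≤ m * l * Q) : 1 ≤ psi1 m Q x ∧ psi1 m Q x ≤ m * l := by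
  have hr0 := Int.emod_nonneg (x - 1) hm.ne'
  have hr1 := Int.emod_lt_of_pos (x - 1) hm
  have hmQ : 0 < m * Q := mul_pos hm hQ
  have hp0 : 0 ≤ (x - 1) / (m * Q) := Int.ediv_nonneg (by linarith) hmQ.le
  have hp1 : (x - 1) / (m * Q) < l := by
    rw [Int.ediv_lt_iff_lt_mul hmQ]
    nlinarith
  unfold psi1
  constructor
  · have := mul_nonneg hm.le hp0
    linarith
  · have : m * ((x - 1) / (m * Q) + 1) ≤ m * l := mul_le_mul_of_nonneg_left (by linarith) hm.le
    linarith

theorem lift1_mem {m Q l : ℤ} (hm : 0 < m) (hQ : 0 < Q) {y s : ℤ} (h1 : 1 ≤ y)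
    (h2 : y ≤ m * l) (hs0 : 0 ≤ s) (hs : s < Q) :
    1 ≤ lift1 m Q y s ∧ lift1 m Q y s ≤ m * l * Q := by
  have hr0 := Int.emod_nonneg (y - 1) hm.ne'
  have hr1 := Int.emod_lt_of_pos (y - 1) hm
  have e0 : lift1 m Q y s - 1 = (y - 1) % m + m * (Q * ((y - 1) / m) + s) := by
    have := Int.emod_add_mul_ediv (y - 1) m
    unfold lift1
    linarith [this]
  have hp0 : 0 ≤ (y - 1) / m := Int.ediv_nonneg (by linarith) hm.le
  have hp1 : (y - 1) / m < l := by
    rw [Int.ediv_lt_iff_lt_mul hm]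
    nlinarith
  constructor
  · have h3 : 0 ≤ m * (Q * ((y - 1) / m) + s) :=
      mul_nonneg hm.le (add_nonneg (mul_nonneg hQ.le hp0) hs0)
    linarith
  · have h4 : Q * ((y - 1) / m + 1) ≤ Q * l := mul_le_mul_of_nonneg_left (by linarith) hQ.le
    have h5 : m * (Q * ((y - 1) / m) + s + 1) ≤ m * (Q * l) :=
      mul_le_mul_of_nonneg_left (by linarith) hm.le
    linarith

/-- The exact decomposition of a sum over the large box. -/
theorem sum_box_lift {m l Q : ℕ} (hm : 0 < m) (hQ : 0 < Q) (h : (Fin 3 → ℤ) → ℝ) :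
    ∑ x ∈ box (m * l * Q), h x = ∑ y ∈ box (m * l), ∑ s ∈ sbox Q, h (lift m Q y s) := by
  rw [← Finset.sum_product']
  have hm' : (0 : ℤ) < m := by exact_mod_cast hm
  have hQ' : (0 : ℤ) < Q := by exact_mod_cast hQ
  refine Finset.sum_bij' (fun x _ => (psi m Q x, dig m Q x)) (fun p _ => lift m Q p.1 p.2)
    ?_ ?_ ?_ ?_ ?_
  · intro x hx
    rw [mem_box] at hx
    rw [Finset.mem_product, mem_box, mem_sbox]
    constructor
    · intro k
      have := psi1_mem (l := l) hm' hQ' (hx k).1 (by have := (hx k).2; push_cast at this; exact this)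
      push_cast
      exact this
    · intro k
      exact ⟨Int.emod_nonneg _ hQ'.ne', Int.emod_lt_of_pos _ hQ'⟩
  · intro p hp
    rw [Finset.mem_product, mem_box, mem_sbox] at hp
    rw [mem_box]
    intro k
    have h1 := hp.1 k
    push_cast at h1
    have := lift1_mem (l := l) hm' hQ' h1.1 h1.2 (hp.2 k).1 (hp.2 k).2
    push_cast
    exact this
  · intro x _
    funext k
    exact psi1_facts hm' hQ' (x k)
  · intro p hp
    rw [Finset.mem_product, mem_sbox] at hp
    refine Prod.ext ?_ ?_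
    · funext k
      exact (lift1_facts hm' hQ' (hp.2 k).1 (hp.2 k).2).1
    · funext k
      exact (lift1_facts hm' hQ' (hp.2 k).1 (hp.2 k).2).2
  · intro x _
    congr 1
    funext k
    exact (psi1_facts hm' hQ' (x k)).symm

/-- The number of digits such that the lift of `y` is a solution. -/
noncomputable def R (a b c : ℤ) (m Q : ℕ) (y : Fin 3 → ℤ) : ℕ :=
  ((sbox Q).filter (fun s => E a b c (lift m Q y s) = 0)).card

theorem sum_T_lift (a b c : ℤ) {m l Q : ℕ} (hm : 0 < m) (hQ : 0 < Q) (G : (Fin 3 → ℤ) → ℝ) :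
    ∑ x ∈ T a b c (m * l * Q) 0, G (psi m Q x)
      = ∑ y ∈ box (m * l), G y * (R a b c m Q y : ℝ) := by
  have hm' : (0 : ℤ) < m := by exact_mod_cast hm
  have hQ' : (0 : ℤ) < Q := by exact_mod_cast hQ
  unfold T
  rw [Finset.sum_filter, sum_box_lift hm hQ]
  refine Finset.sum_congr rfl fun y _ => ?_
  have h1 : ∀ s ∈ sbox Q, (if E a b c (lift m Q y s) = 0 then G (psi m Q (lift m Q y s)) else 0)
      = if E a b c (lift m Q y s) = 0 then G y else 0 := by
    intro s hs
    rw [mem_sbox] at hs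
    have : psi m Q (lift m Q y s) = y := by
      funext k
      exact (lift1_facts hm' hQ' (hs k).1 (hs k).2).1
    rw [this]
  rw [Finset.sum_congr rfl h1, ← Finset.sum_filter, Finset.sum_const, nsmul_eq_mul, mul_comm]
  rfl

theorem E_lift (a b c : ℤ) (m Q : ℕ) (y s : Fin 3 → ℤ) :
    E a b c (lift m Q y s) = E a b c y
      + m * ((Q - 1) * E a b c (fun k => (y k - 1) / m) + E a b c s) := by
  simp only [E, lift, lift1]
  ring

theorem E_bound {a b c : ℤ} (ha : 0 < a) (hb : 0 < b) (hc : 0 < c) {v : Fin 3 → ℤ} {M : ℤ}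
    (h : ∀ k, 0 ≤ v k ∧ v k ≤ M) : |E a b c v| ≤ (a + b + c) * M := by
  have h0 := mul_le_mul_of_nonneg_left (h 0).2 ha.le
  have h1 := mul_le_mul_of_nonneg_left (h 1).2 hb.le
  have h2 := mul_le_mul_of_nonneg_left (h 2).2 hc.le
  have g0 := mul_nonneg ha.le (h 0).1
  have g1 := mul_nonneg hb.le (h 1).1
  have g2 := mul_nonneg hc.le (h 2).1
  unfold E
  rw [abs_le]
  constructor <;> nlinarith

/-- Equidistribution of the linear form modulo `Q`. -/
theorem card_mod (a b c : ℤ) {Q : ℕ} (hQ : 0 < Q) {τ : Fin 3 → ℤ} (hτ : E a b c τ = 1) (v : ℤ) :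
    ((sbox Q).filter (fun s => (Q : ℤ) ∣ E a b c s - v)).card = Q * Q := by
  have hQ' : (0 : ℤ) < Q := by exact_mod_cast hQ
  -- shift invariance
  have key : ∀ v : ℤ, ((sbox Q).filter (fun s => (Q : ℤ) ∣ E a b c s - v)).card
      ≤ ((sbox Q).filter (fun s => (Q : ℤ) ∣ E a b c s - (v + 1))).card := by
    intro v
    refine Finset.card_le_card_of_injOn (fun s k => (s k + τ k) % Q) ?_ ?_
    · intro s hs
      rw [Finset.mem_coe, Finset.mem_filter] at hs
      rw [Finset.mem_coe, Finset.mem_filter, mem_sbox]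
      refine ⟨fun k => ⟨Int.emod_nonneg _ hQ'.ne', Int.emod_lt_of_pos _ hQ'⟩, ?_⟩
      have h1 : ∀ k, (s k + τ k) % (Q : ℤ) = s k + τ k - Q * ((s k + τ k) / Q) := by
        intro k
        have := Int.emod_add_mul_ediv (s k + τ k) Q
        linarith
      have h2 : E a b c (fun k => (s k + τ k) % (Q : ℤ)) - (v + 1)
          = (E a b c s - v) + (E a b c τ - 1) - Q * E a b c (fun k => (s k + τ k) / Q) := by
        unfold E
        beta_reduce
        rw [h1 0, h1 1, h1 2]
        ring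
      rw [h2, hτ, sub_self, add_zero]
      exact dvd_sub hs.2 (dvd_mul_right _ _)
    · intro s hs t ht h
      rw [Finset.mem_coe, Finset.mem_filter, mem_sbox] at hs ht
      funext k
      have hk := congrFun h k
      simp only at hk
      have h3 : (s k) % (Q : ℤ) = (t k) % Q := by
        have := (Int.emod_emod_of_dvd (s k + τ k) (dvd_refl (Q : ℤ)))
        have h4 : ((s k + τ k) - τ k) % (Q : ℤ) = ((t k + τ k) - τ k) % Q := by
          rw [Int.sub_emod, hk, ← Int.sub_emod]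
        simpa using h4
      rwa [Int.emod_eq_of_lt (hs.1 k).1 (hs.1 k).2, Int.emod_eq_of_lt (ht.1 k).1 (ht.1 k).2] at h3
  have key2 : ∀ (v : ℤ) (n : ℕ), ((sbox Q).filter (fun s => (Q : ℤ) ∣ E a b c s - v)).card
      ≤ ((sbox Q).filter (fun s => (Q : ℤ) ∣ E a b c s - (v + n))).card := by
    intro v n
    induction n with
    | zero => simp
    | succ n ih =>
      refine ih.trans ?_
      have := key (v + n)
      push_cast
      rw [← add_assoc]
      exact this
  have per : ∀ v t : ℤ, ((sbox Q).filter (fun s => (Q : ℤ) ∣ E a b c s - v)).card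
      = ((sbox Q).filter (fun s => (Q : ℤ) ∣ E a b c s - (v + Q * t))).card := by
    intro v t
    congr 1
    refine Finset.filter_congr fun s _ => ?_
    have : E a b c s - (v + Q * t) = (E a b c s - v) - Q * t := by ring
    rw [this]
    exact (dvd_sub_left (dvd_mul_right _ _)).symm
  -- all the counts agree
  have all : ∀ v : ℤ, ((sbox Q).filter (fun s => (Q : ℤ) ∣ E a b c s - v)).card
      = ((sbox Q).filter (fun s => (Q : ℤ) ∣ E a b c s - 0)).card := by
    intro v
    apply le_antisymm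
    · -- go from v up to a multiple of Q
      have h1 := key2 v ((-v) % Q).toNat
      have h2 : (((-v) % (Q : ℤ)).toNat : ℤ) = (-v) % Q :=
        Int.toNat_of_nonneg (Int.emod_nonneg _ hQ'.ne')
      rw [h2] at h1
      have h3 : v + (-v) % (Q : ℤ) = 0 + Q * (-((-v) / Q)) := by
        have := Int.emod_add_mul_ediv (-v) Q
        linarith
      rw [h3, ← per] at h1
      exact h1
    · have h1 := key2 0 (v % Q).toNat
      have h2 : ((v % (Q : ℤ)).toNat : ℤ) = v % Q :=
        Int.toNat_of_nonneg (Int.emod_nonneg _ hQ'.ne')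
      rw [h2] at h1
      have h3 : v = 0 + v % (Q : ℤ) + Q * (v / Q) := by
        have := Int.emod_add_mul_ediv v Q
        linarith
      conv_rhs => rw [h3]
      rw [← per]
      exact h1
  -- sum over the residues
  have tot : (sbox Q).card = ∑ v ∈ Ico (0 : ℤ) Q,
      ((sbox Q).filter (fun s => E a b c s % Q = v)).card :=
    Finset.card_eq_sum_card_fiberwise (f := fun s => E a b c s % Q) (fun s _ => by
      rw [Finset.mem_coe, Finset.mem_Ico]
      exact ⟨Int.emod_nonneg _ hQ'.ne', Int.emod_lt_of_pos _ hQ'⟩)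
  have h4 : ∀ v ∈ Ico (0 : ℤ) Q, ((sbox Q).filter (fun s => E a b c s % Q = v)).card
      = ((sbox Q).filter (fun s => (Q : ℤ) ∣ E a b c s - 0)).card := by
    intro w hw
    rw [← all w]
    congr 1
    refine Finset.filter_congr fun s _ => ?_
    rw [Finset.mem_Ico] at hw
    have hw' := Int.emod_eq_of_lt hw.1 hw.2
    constructor
    · intro h
      exact Int.dvd_self_sub_of_emod_eq h
    · intro h
      have h9 := Int.emod_eq_emod_iff_emod_sub_eq_zero.mpr (Int.emod_eq_zero_of_dvd h)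
      rw [h9, hw']
  rw [Finset.sum_congr rfl h4, Finset.sum_const] at tot
  have h5 : (sbox Q).card = Q * Q * Q := by
    simp [sbox, Fintype.card_piFinset, pow_succ]
  have h6 : (Ico (0 : ℤ) Q).card = Q := by simp
  rw [h5, h6, smul_eq_mul] at tot
  rw [all v]
  have h7 : Q * ((sbox Q).filter (fun s => (Q : ℤ) ∣ E a b c s - 0)).card = Q * (Q * Q) := by
    rw [← tot]; ring
  exact Nat.eq_of_mul_eq_mul_left hQ h7

end Pool.Agent.R804.RbLim
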